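import Pool.Agent.Helper86_Men.Defs

/-!
# Squad MEN: basic facts on trees, branches and conditions
-/

open MeasureTheory Set

namespace Pool.Agent.Men

/-! ### Trees -/

theorem Tree.mem_of_isPrefix {T : Set Node} (hT : Tree T) {σ τ : Node} (h : σ <+: τ)
    (hτ : τ ∈ T) : σ ∈ T := by
  obtain ⟨l, rfl⟩ := h
  induction l using List.reverseRecOn with
  | nil => simpa using hτ
  | append_singleton l a ih =>
    rw [← List.append_assoc] at hτ
    exact ih (hT.down _ _ hτ)

theorem down_of_append {T : Set Node} (hd : ∀ σ a, σ ++ [a] ∈ T → σ ∈ T) (l : Node) :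
    ∀ σ : Node, σ ++ l ∈ T → σ ∈ T := by
  induction l using List.reverseRecOn with
  | nil => intro σ h; simpa using h
  | append_singleton l a ih =>
    intro σ h'
    rw [← List.append_assoc] at h'
    exact ih σ (hd _ _ h')

theorem Perf.tree {T : Set Node} (h : Perf T) : Tree T where
  nil := h.nil
  down := h.down
  ext σ hσ := by
    obtain ⟨τ, _, h2, h3, _⟩ := h.split σ hσ
    obtain ⟨l, rfl⟩ := h2
    cases l with
    | nil => exact ⟨0, by simpa using h3⟩
    | cons a l =>
      exact ⟨a, down_of_append h.down (l ++ [0]) (σ ++ [a]) (by simpa using h3)⟩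

theorem Supf.tree {T : Set Node} (h : Supf T) : Tree T where
  nil := h.nil
  down := h.down
  ext σ hσ := by
    obtain ⟨τ, _, h2, h3⟩ := h.split σ hσ
    obtain ⟨l, rfl⟩ := h2
    obtain ⟨b, hb⟩ := h3.nonempty
    have hb' : σ ++ l ++ [b] ∈ T := hb
    cases l with
    | nil => exact ⟨b, by simpa using hb'⟩
    | cons a l =>
      exact ⟨a, down_of_append h.down (l ++ [b]) (σ ++ [a]) (by simpa using hb')⟩

theorem sub_subset (T : Set Node) (τ : Node) : sub T τ ⊆ T := fun _ h => h.1

theorem sub_nil (T : Set Node) : sub T [] = T := by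
  ext σ
  simp [sub]

theorem Perf.mem_two {T : Set Node} (h : Perf T) {σ : Node} (hσ : σ ∈ T) : ∀ a ∈ σ, a < 2 := by
  induction σ using List.reverseRecOn with
  | nil => simp
  | append_singleton l a ih =>
    intro b hb
    rcases List.mem_append.1 hb with hb | hb
    · exact ih (h.down _ _ hσ) b hb
    · rw [List.mem_singleton.1 hb]; exact h.bdd _ _ hσ

theorem perf_full : Perf {σ : Node | ∀ a ∈ σ, a < 2} := by
  refine ⟨?_, ?_, ?_, ?_⟩
  · simp
  · intro σ a h b hb
    exact h b (List.mem_append_left _ hb)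
  · intro σ a h
    exact h a (by simp)
  · intro σ hσ
    refine ⟨σ, hσ, List.prefix_rfl, ?_, ?_⟩ <;>
    · intro a ha
      rcases List.mem_append.1 ha with ha | ha
      · exact hσ a ha
      · rw [List.mem_singleton.1 ha]; norm_num

theorem supf_univ : Supf Set.univ := by
  refine ⟨trivial, fun _ _ _ => trivial, ?_⟩
  intro σ _
  refine ⟨σ, trivial, List.prefix_rfl, ?_⟩
  convert Set.infinite_univ (α := ℕ)
  simp

theorem Perf.sub {T : Set Node} (h : Perf T) {τ : Node} (hτ : τ ∈ T) : Perf (sub T τ) := by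
  refine ⟨⟨h.nil, Or.inl List.nil_prefix⟩, ?_, fun σ a hσ => h.bdd σ a hσ.1, ?_⟩
  · rintro σ a ⟨h1, h2⟩
    refine ⟨h.down _ _ h1, ?_⟩
    rcases h2 with h2 | h2
    · exact Or.inl ((List.prefix_append _ _).trans h2)
    · rcases List.prefix_concat_iff.1 h2 with h2 | h2
      · left; rw [h2]; exact List.prefix_append _ _
      · exact Or.inr h2
  · rintro σ ⟨h1, h2⟩
    have key : ∀ ρ ∈ T, τ <+: ρ → σ <+: ρ → ∃ τ' ∈ Men.sub T τ, σ <+: τ' ∧
        τ' ++ [0] ∈ Men.sub T τ ∧ τ' ++ [1] ∈ Men.sub T τ := by
      intro ρ hρ hτρ hσρ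
      obtain ⟨τ', h3, h4, h5, h6⟩ := h.split ρ hρ
      refine ⟨τ', ⟨h3, Or.inr (hτρ.trans h4)⟩, hσρ.trans h4,
        ⟨h5, Or.inr ((hτρ.trans h4).trans (List.prefix_append _ _))⟩,
        ⟨h6, Or.inr ((hτρ.trans h4).trans (List.prefix_append _ _))⟩⟩
    rcases h2 with h2 | h2
    · exact key τ hτ List.prefix_rfl h2
    · exact key σ h1 h2 List.prefix_rfl

theorem Supf.sub {T : Set Node} (h : Supf T) {τ : Node} (hτ : τ ∈ T) : Supf (sub T τ) := by
  refine ⟨⟨h.nil, Or.inl List.nil_prefix⟩, ?_, ?_⟩
  · rintro σ a ⟨h1, h2⟩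
    refine ⟨h.down _ _ h1, ?_⟩
    rcases h2 with h2 | h2
    · exact Or.inl ((List.prefix_append _ _).trans h2)
    · rcases List.prefix_concat_iff.1 h2 with h2 | h2
      · left; rw [h2]; exact List.prefix_append _ _
      · exact Or.inr h2
  · rintro σ ⟨h1, h2⟩
    have key : ∀ ρ ∈ T, τ <+: ρ → σ <+: ρ → ∃ τ' ∈ Men.sub T τ, σ <+: τ' ∧
        {a | τ' ++ [a] ∈ Men.sub T τ}.Infinite := by
      intro ρ hρ hτρ hσρ
      obtain ⟨τ', h3, h4, h5⟩ := h.split ρ hρ
      refine ⟨τ', ⟨h3, Or.inr (hτρ.trans h4)⟩, hσρ.trans h4, h5.mono ?_⟩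
      intro a ha
      exact ⟨ha, Or.inr ((hτρ.trans h4).trans (List.prefix_append _ _))⟩
    rcases h2 with h2 | h2
    · exact key τ hτ List.prefix_rfl h2
    · exact key σ h1 h2 List.prefix_rfl

/-! ### Measurability of classes of trees -/

theorem measurableSet_mem_node (σ : Node) : MeasurableSet {T : Set Node | σ ∈ T} :=
  measurableSet_setOfPred.2 (measurable_set_mem σ)

theorem measurable_setNode {Ω : Type*} [MeasurableSpace Ω] {f : Ω → Set Node}
    (h : ∀ σ, MeasurableSet {ω | σ ∈ f ω}) : Measurable f := by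
  rw [measurable_set_iff]
  intro σ
  exact measurableSet_setOfPred.1 (h σ)

/-- Membership of a measurable node in a measurable set of nodes. -/
theorem measurableSet_node_mem {Ω : Type*} [MeasurableSpace Ω] {f : Ω → Node} {T : Ω → Set Node}
    (hf : Measurable f) (hT : Measurable T) : MeasurableSet {ω | f ω ∈ T ω} := by
  have : {ω | f ω ∈ T ω} = ⋃ σ : Node, {ω | f ω = σ} ∩ {ω | σ ∈ T ω} := by
    ext ω
    simp
  rw [this]
  exact MeasurableSet.iUnion fun σ =>
    (hf (measurableSet_singleton σ)).inter (hT (measurableSet_mem_node σ))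

theorem measurable_sub {Ω : Type*} [MeasurableSpace Ω] {f : Ω → Node} {T : Ω → Set Node}
    (hf : Measurable f) (hT : Measurable T) : Measurable fun ω => sub (T ω) (f ω) := by
  apply measurable_setNode
  intro σ
  have : {ω | σ ∈ sub (T ω) (f ω)} = {ω | σ ∈ T ω} ∩ (f ⁻¹' {τ | σ <+: τ ∨ τ <+: σ}) := rfl
  rw [this]
  exact (hT (measurableSet_mem_node σ)).inter (hf (by trivial))

theorem measurableSet_imp {Ω : Type*} [MeasurableSpace Ω] {P Q : Ω → Prop}
    (hP : MeasurableSet {ω | P ω}) (hQ : MeasurableSet {ω | Q ω}) :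
    MeasurableSet {ω | P ω → Q ω} := by
  have : {ω | P ω → Q ω} = {ω | P ω}ᶜ ∪ {ω | Q ω} := by
    ext ω; simp only [Set.mem_ofPred_eq, Set.mem_union, Set.mem_compl_iff]; tauto
  rw [this]
  exact hP.compl.union hQ

theorem measurableSet_perf : MeasurableSet {T : Set Node | Perf T} := by
  have : {T : Set Node | Perf T} = {T : Set Node | [] ∈ T} ∩
      (⋂ σ : Node, ⋂ a : ℕ, {T : Set Node | σ ++ [a] ∈ T → σ ∈ T}) ∩
      (⋂ σ : Node, ⋂ a : ℕ, {T : Set Node | σ ++ [a] ∈ T → a < 2}) ∩
      (⋂ σ : Node, {T : Set Node | σ ∈ T → ∃ τ : {τ : Node // σ <+: τ}, τ.1 ∈ T ∧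
        τ.1 ++ [0] ∈ T ∧ τ.1 ++ [1] ∈ T}) := by
    ext T
    simp only [Set.mem_inter_iff, Set.mem_iInter, Set.mem_ofPred_eq]
    constructor
    · intro h
      refine ⟨⟨⟨h.nil, h.down⟩, h.bdd⟩, fun σ hσ => ?_⟩
      obtain ⟨τ, h1, h2, h3, h4⟩ := h.split σ hσ
      exact ⟨⟨τ, h2⟩, h1, h3, h4⟩
    · rintro ⟨⟨⟨h1, h2⟩, h3⟩, h4⟩
      refine ⟨h1, h2, h3, fun σ hσ => ?_⟩
      obtain ⟨τ, h5, h6, h7⟩ := h4 σ hσ
      exact ⟨τ.1, h5, τ.2, h6, h7⟩
  rw [this]
  refine (((MeasurableSet.inter (measurableSet_mem_node _) ?_).inter ?_).inter ?_)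
  · exact MeasurableSet.iInter fun σ => MeasurableSet.iInter fun a =>
      measurableSet_imp (measurableSet_mem_node _) (measurableSet_mem_node _)
  · exact MeasurableSet.iInter fun σ => MeasurableSet.iInter fun a =>
      measurableSet_imp (measurableSet_mem_node _) (MeasurableSet.const _)
  · refine MeasurableSet.iInter fun σ => measurableSet_imp (measurableSet_mem_node _) ?_
    have : {T : Set Node | ∃ τ : {τ : Node // σ <+: τ}, τ.1 ∈ T ∧ τ.1 ++ [0] ∈ T ∧
        τ.1 ++ [1] ∈ T} = ⋃ τ : {τ : Node // σ <+: τ}, {T : Set Node | τ.1 ∈ T} ∩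
        ({T : Set Node | τ.1 ++ [0] ∈ T} ∩ {T : Set Node | τ.1 ++ [1] ∈ T}) := by
      ext T; simp
    rw [this]
    exact MeasurableSet.iUnion fun τ => (measurableSet_mem_node _).inter
      ((measurableSet_mem_node _).inter (measurableSet_mem_node _))

theorem measurableSet_infinite_succ (τ : Node) :
    MeasurableSet {T : Set Node | {a | τ ++ [a] ∈ T}.Infinite} := by
  have : {T : Set Node | {a | τ ++ [a] ∈ T}.Infinite} =
      ⋂ n : ℕ, ⋃ a : {a : ℕ // n < a}, {T : Set Node | τ ++ [a.1] ∈ T} := by
    ext T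
    simp only [Set.mem_ofPred_eq, Set.mem_iInter, Set.mem_iUnion]
    constructor
    · intro h n
      obtain ⟨b, h1, h2⟩ := h.exists_gt n
      exact ⟨⟨b, h2⟩, h1⟩
    · intro h
      apply Set.infinite_of_forall_exists_gt
      intro n
      obtain ⟨b, h1⟩ := h n
      exact ⟨b.1, h1, b.2⟩
  rw [this]
  exact MeasurableSet.iInter fun n => MeasurableSet.iUnion fun a => measurableSet_mem_node _

theorem measurableSet_supf : MeasurableSet {T : Set Node | Supf T} := by
  have : {T : Set Node | Supf T} = {T : Set Node | [] ∈ T} ∩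
      (⋂ σ : Node, ⋂ a : ℕ, {T : Set Node | σ ++ [a] ∈ T → σ ∈ T}) ∩
      (⋂ σ : Node, {T : Set Node | σ ∈ T → ∃ τ : {τ : Node // σ <+: τ}, τ.1 ∈ T ∧
        {a | τ.1 ++ [a] ∈ T}.Infinite}) := by
    ext T
    simp only [Set.mem_inter_iff, Set.mem_iInter, Set.mem_ofPred_eq]
    constructor
    · intro h
      refine ⟨⟨h.nil, h.down⟩, fun σ hσ => ?_⟩
      obtain ⟨τ, h1, h2, h3⟩ := h.split σ hσ
      exact ⟨⟨τ, h2⟩, h1, h3⟩
    · rintro ⟨⟨h1, h2⟩, h4⟩
      refine ⟨h1, h2, fun σ hσ => ?_⟩
      obtain ⟨τ, h5, h6⟩ := h4 σ hσ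
      exact ⟨τ.1, h5, τ.2, h6⟩
  rw [this]
  refine ((MeasurableSet.inter (measurableSet_mem_node _) ?_).inter ?_)
  · exact MeasurableSet.iInter fun σ => MeasurableSet.iInter fun a =>
      measurableSet_imp (measurableSet_mem_node _) (measurableSet_mem_node _)
  · refine MeasurableSet.iInter fun σ => measurableSet_imp (measurableSet_mem_node _) ?_
    have : {T : Set Node | ∃ τ : {τ : Node // σ <+: τ}, τ.1 ∈ T ∧
        {a | τ.1 ++ [a] ∈ T}.Infinite} = ⋃ τ : {τ : Node // σ <+: τ}, {T : Set Node | τ.1 ∈ T} ∩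
        {T : Set Node | {a | τ.1 ++ [a] ∈ T}.Infinite} := by
      ext T; simp
    rw [this]
    exact MeasurableSet.iUnion fun τ => (measurableSet_mem_node _).inter
      (measurableSet_infinite_succ _)

/-! ### The two alphabets -/

/-- Sacks trees: binary sequences. -/
instance alphS : Alph (Fin 2) where
  toN := Fin.val
  inj := Fin.val_injective
  meas _ := by measurability
  inhab := 0
  Good := Perf
  full := {σ | ∀ a ∈ σ, a < 2}
  mem_full σ := by
    simp only [Set.mem_ofPred_eq, Set.mem_range]
    refine forall₂_congr fun a _ => ⟨fun h => ⟨⟨a, h⟩, rfl⟩, ?_⟩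
    rintro ⟨b, rfl⟩
    exact b.isLt
  good_full := perf_full
  tree _ h := h.tree
  sub_full _ h _ hσ := h.mem_two hσ
  good_sub _ h _ hτ := h.sub hτ
  meas_good := measurableSet_perf

/-- Miller trees: sequences of natural numbers. -/
instance alphM : Alph ℕ where
  toN := id
  inj := Function.injective_id
  meas _ := by measurability
  inhab := 0
  Good := Supf
  full := Set.univ
  mem_full σ := by simp
  good_full := supf_univ
  tree _ h := h.tree
  sub_full _ _ := Set.subset_univ _
  good_sub _ h _ hτ := h.sub hτ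
  meas_good := measurableSet_supf

/-! ### Branches -/

section
variable {D : Type} [MeasurableSpace D] [Alph D]

@[simp] theorem pre_zero (t : Br D) : pre t 0 = [] := rfl

theorem pre_succ (t : Br D) (m : ℕ) : pre t (m + 1) = pre t m ++ [Alph.toN (t m)] := by
  simp [pre, List.range_succ]

@[simp] theorem length_pre (t : Br D) (m : ℕ) : (pre t m).length = m := by
  simp [pre]

theorem getElem_pre (t : Br D) (m i : ℕ) (h : i < (pre t m).length) :
    (pre t m)[i] = Alph.toN (t i) := by
  simp [pre]

theorem pre_isPrefix (t : Br D) {m n : ℕ} (h : m ≤ n) : pre t m <+: pre t n := by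
  induction n, h using Nat.le_induction with
  | base => exact List.prefix_rfl
  | succ n _ ih => rw [pre_succ]; exact ih.trans (List.prefix_append _ _)

theorem pre_eq_pre_iff {t t' : Br D} {m : ℕ} : pre t m = pre t' m ↔ ∀ i < m, t i = t' i := by
  simp [pre, (Alph.inj (D := D)).eq_iff]

theorem take_pre (t : Br D) {m n : ℕ} (h : m ≤ n) : (pre t n).take m = pre t m := by
  obtain ⟨l, hl⟩ := pre_isPrefix t h
  rw [← hl, List.take_append_of_le_length (by simp)]
  simp

/-- A prefix of an initial segment is an initial segment. -/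
theorem eq_pre_of_isPrefix {t : Br D} {σ : Node} {n : ℕ} (h : σ <+: pre t n) :
    σ = pre t σ.length := by
  have h1 : σ.length ≤ n := by simpa using h.length_le
  have h2 := List.prefix_iff_eq_take.1 h
  rw [take_pre t h1] at h2
  exact h2

theorem pre_inj {t t' : Br D} (h : ∀ m, pre t m = pre t' m) : t = t' := by
  funext i
  exact pre_eq_pre_iff.1 (h (i + 1)) i (Nat.lt_succ_self i)

theorem pre_mem_full (t : Br D) (m : ℕ) : pre t m ∈ Alph.full D := by
  rw [Alph.mem_full]
  intro a ha
  simp only [pre, List.mem_map] at ha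
  obtain ⟨i, _, rfl⟩ := ha
  exact ⟨_, rfl⟩

@[simp] theorem body_full : body D (Alph.full D) = Set.univ :=
  Set.eq_univ_of_forall fun t m => pre_mem_full t m

/-- Every node of a good tree lies on a branch. -/
theorem exists_branch {T : Set Node} (hG : Alph.Good D T) {σ : Node} (h : σ ∈ T) :
    ∃ t ∈ body D T, pre t σ.length = σ := by
  classical
  have hT := Alph.tree _ hG
  let nx : Node → ℕ := fun τ => if hτ : ∃ a, τ ++ [a] ∈ T then hτ.choose else 0
  have hnx : ∀ τ ∈ T, τ ++ [nx τ] ∈ T := by
    intro τ hτ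
    have h1 := hT.ext τ hτ
    simp only [nx, h1, dif_pos]
    exact h1.choose_spec
  let g : ℕ → Node := fun k => Nat.rec σ (fun _ τ => τ ++ [nx τ]) k
  have hg : ∀ k, g k ∈ T ∧ (g k).length = σ.length + k ∧ σ <+: g k := by
    intro k
    induction k with
    | zero => exact ⟨h, by simp [g], List.prefix_rfl⟩
    | succ k ih =>
      refine ⟨hnx _ ih.1, ?_, ih.2.2.trans (List.prefix_append _ _)⟩
      change (g k ++ [nx (g k)]).length = _
      simp [ih.2.1]; omega
  have hmono : ∀ k l, k ≤ l → g k <+: g l := by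
    intro k l hkl
    induction l, hkl using Nat.le_induction with
    | base => exact List.prefix_rfl
    | succ n _ ih => exact ih.trans (List.prefix_append _ _)
  have hex : ∀ i, ∃ d : D, Alph.toN d = (g (i + 1)).getD i 0 := by
    intro i
    have h1 := Alph.sub_full _ hG (hg (i + 1)).1
    rw [Alph.mem_full] at h1
    have h5 : i < (g (i + 1)).length := by have := (hg (i + 1)).2.1; omega
    rw [List.getD_eq_getElem _ _ h5]
    exact h1 _ (List.getElem_mem h5)
  choose t ht using hex
  have key : ∀ m k, m ≤ σ.length + k → pre t m = (g k).take m := by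
    intro m k hmk
    apply List.ext_getElem
    · simp [(hg k).2.1]; omega
    · intro i h1 h2
      have h3 : i < m := by simpa using h1
      rw [getElem_pre, List.getElem_take, ht]
      have h4 : i < (g k).length := by rw [(hg k).2.1]; omega
      have h5 : i < (g (i + 1)).length := by have := (hg (i + 1)).2.1; omega
      simp only [List.getD_eq_getElem _ _ h5]
      rcases le_total k (i + 1) with hk | hk
      · exact ((hmono _ _ hk).getElem h4).symm
      · exact (hmono _ _ hk).getElem h5
  refine ⟨t, fun m => ?_, ?_⟩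
  · rw [key m m (by omega)]
    exact hT.mem_of_isPrefix (List.take_prefix _ _) (hg m).1
  · rw [key σ.length 0 (by omega)]
    simp [g]

theorem body_nonempty {T : Set Node} (hT : Alph.Good D T) : (body D T).Nonempty := by
  obtain ⟨t, ht, _⟩ := exists_branch hT (Alph.tree _ hT).nil
  exact ⟨t, ht⟩

theorem body_mono {T T' : Set Node} (h : T ⊆ T') : body D T ⊆ body D T' :=
  fun _ ht m => h (ht m)

theorem subset_of_body {T T' : Set Node} (hT : Alph.Good D T) (h : body D T ⊆ body D T') :
    T ⊆ T' := by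
  intro σ hσ
  obtain ⟨t, ht, h1⟩ := exists_branch hT hσ
  rw [← h1]
  exact h ht _

theorem mem_body_sub {T : Set Node} {τ : Node} {t : Br D} :
    t ∈ body D (sub T τ) ↔ t ∈ body D T ∧ pre t τ.length = τ := by
  constructor
  · intro h
    refine ⟨fun m => (h m).1, ?_⟩
    rcases (h τ.length).2 with h1 | h1
    · exact h1.eq_of_length (by simp)
    · exact (h1.eq_of_length (by simp)).symm
  · rintro ⟨h1, h2⟩ m
    refine ⟨h1 m, ?_⟩
    rcases le_total m τ.length with h | h
    · left; rw [← h2]; exact pre_isPrefix t h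
    · right
      conv_lhs => rw [← h2]
      exact pre_isPrefix t h

theorem measurable_pre (m : ℕ) : Measurable (fun t : Br D => pre t m) := by
  induction m with
  | zero => exact measurable_const
  | succ m ih =>
    have : (fun t : Br D => pre t (m + 1)) = fun t => (fun x : Node × ℕ => x.1 ++ [x.2])
        (pre t m, Alph.toN (t m)) := by
      funext t; exact pre_succ t m
    rw [this]
    have h2 : Measurable (fun d : D => Alph.toN d) := fun s _ => Alph.meas _
    have h3 : Measurable (fun t : Br D => Alph.toN (t m)) := h2.comp (measurable_pi_apply m)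
    have h4 : Measurable (fun x : Node × ℕ => x.1 ++ [x.2]) := measurable_of_countable _
    exact h4.comp (ih.prodMk h3)

theorem measurableSet_mem_body {Ω : Type*} [MeasurableSpace Ω] {f : Ω → Br D} {T : Ω → Set Node}
    (hf : Measurable f) (hT : Measurable T) : MeasurableSet {ω | f ω ∈ body D (T ω)} := by
  have : {ω | f ω ∈ body D (T ω)} = ⋂ m, {ω | pre (f ω) m ∈ T ω} := by
    ext ω
    simp [body]
  rw [this]
  exact MeasurableSet.iInter fun m =>
    measurableSet_node_mem ((measurable_pre (D := D) m).comp hf) hT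

end

/-! ### Conditions -/

section
variable {D : Type} [MeasurableSpace D] [Alph D] {I : Type} [LinearOrder I]

/-- Conditions are determined by their trees and supports. -/
theorem Cond.ext_TS {p q : Cond D I} (hT : ∀ i y, p.T i y = q.T i y) (hS : p.S = q.S) : p = q := by
  obtain ⟨T, S, _, _, _, _, _⟩ := p
  obtain ⟨T', S', _, _, _, _, _⟩ := q
  have h1 : T = T' := funext fun i => funext fun y => hT i y
  have h2 : S = S' := hS
  subst h1 h2
  rfl

/-- A condition from raw data: outside of the good trees one takes the full tree. -/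
theorem Cond.exists_of_raw (T : I → Pt D I → Set Node) (S : Set I) (hS : S.Countable)
    (hfull : ∀ i, i ∉ S → ∀ y, T i y = Alph.full D)
    (hdep : ∀ i y y', (∀ j ∈ S, j < i → y j = y' j) → T i y = T i y')
    (hmeas : ∀ i, Measurable (T i)) :
    ∃ q : Cond D I, q.S = S ∧ (∀ i y, Alph.Good D (T i y) → q.T i y = T i y) ∧
      (∀ i y, ¬ Alph.Good D (T i y) → q.T i y = Alph.full D) := by
  classical
  refine ⟨⟨fun i y => if Alph.Good D (T i y) then T i y else Alph.full D, S, ?_, hS, ?_, ?_, ?_⟩,
    rfl, ?_, ?_⟩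
  · intro i y
    split_ifs with h
    · exact h
    · exact Alph.good_full
  · intro i hi y
    rw [hfull i hi y, ite_self]
  · intro i y y' h
    rw [hdep i y y' h]
  · intro i
    exact Measurable.ite ((Alph.meas_good (D := D)).preimage (hmeas i)) (hmeas i) measurable_const
  · intro i y h
    simp [h]
  · intro i y h
    simp [h]

theorem Cond.T_congr (p : Cond D I) {i : I} {y y' : Pt D I} (h : ∀ j, j < i → y j = y' j) :
    p.T i y = p.T i y' := p.dep i y y' fun j _ hj => h j hj

section
variable [WellFoundedLT I]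

/-- Every partial point of a condition extends to a point of the condition. -/
theorem Cond.exists_ext (p : Cond D I) (J : Set I) (hJ : IsLowerSet J) (y : Pt D I)
    (hy : y ∈ p.On J) : ∃ y' ∈ p.body, ∀ i ∈ J, y' i = y i := by
  classical
  let ch : Set Node → Br D := fun T =>
    if h : (Men.body D T).Nonempty then h.some else fun _ => Alph.inhab
  have hch : ∀ T, Alph.Good D T → ch T ∈ Men.body D T := by
    intro T hT
    have := body_nonempty hT
    simp only [ch, this, dif_pos]
    exact this.some_mem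
  let F : (i : I) → ((j : I) → j < i → Br D) → Br D := fun i ih =>
    if i ∈ J then y i else
      ch (p.T i (fun j => if h : j < i then ih j h else fun _ => Alph.inhab))
  let y' : Pt D I := (wellFounded_lt (α := I)).fix F
  have hy' : ∀ i, y' i = if i ∈ J then y i else ch (p.T i y') := by
    intro i
    have h1 : y' i = F i (fun j _ => y' j) := (wellFounded_lt (α := I)).fix_eq F i
    rw [h1]
    simp only [F]
    split_ifs
    · rfl
    · congr 1
      apply p.T_congr
      intro j hj
      simp [hj]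
  have hyJ : ∀ i ∈ J, y' i = y i := fun i hi => by rw [hy' i, if_pos hi]
  refine ⟨y', fun i => ?_, hyJ⟩
  by_cases hi : i ∈ J
  · rw [hyJ i hi, p.T_congr (y' := y) (fun j hj => hyJ j (hJ hj.le hi))]
    exact hy i hi
  · rw [hy' i, if_neg hi]
    exact hch _ (p.good i y')

theorem Cond.body_nonempty (p : Cond D I) : p.body.Nonempty := by
  obtain ⟨y, hy, _⟩ := p.exists_ext ∅ (fun _ _ _ h => h.elim) (fun _ _ => Alph.inhab)
    (fun i hi => hi.elim)
  exact ⟨y, hy⟩

/-- Changing the value at `i` to another branch of the tree. -/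
theorem Cond.exists_ext_at (p : Cond D I) {y : Pt D I} (i : I) (hy : y ∈ p.On (Set.Iio i))
    {t : Br D} (ht : t ∈ Men.body D (p.T i y)) :
    ∃ y' ∈ p.body, (∀ j < i, y' j = y j) ∧ y' i = t := by
  classical
  obtain ⟨y', h1, h2⟩ := p.exists_ext (Set.Iic i) (fun _ _ h h' => le_trans h h')
    (Function.update y i t) (by
      intro j hj
      rcases lt_or_eq_of_le (Set.mem_Iic.1 hj) with h | h
      · rw [Function.update_of_ne h.ne, p.T_congr (y' := y)]
        · exact hy j h
        · intro k hk
          rw [Function.update_of_ne (hk.trans h).ne]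
      · subst h
        rw [Function.update_self, p.T_congr (y' := y)]
        · exact ht
        · intro k hk
          rw [Function.update_of_ne hk.ne])
  refine ⟨y', h1, fun j hj => ?_, ?_⟩
  · rw [h2 j hj.le, Function.update_of_ne hj.ne]
  · rw [h2 i le_rfl, Function.update_self]

/-- Comparison of trees at partial points. -/
theorem Cond.T_subset_on {q p : Cond D I} (h : q ≤ p) {y : Pt D I} (i : I)
    (hy : y ∈ q.On (Set.Iio i)) : q.T i y ⊆ p.T i y := by
  apply subset_of_body (q.good i y)
  intro t ht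
  obtain ⟨y', h1, h2, h3⟩ := q.exists_ext_at i hy ht
  have := h h1 i
  rwa [h3, p.T_congr h2] at this

theorem Cond.T_subset {q p : Cond D I} (h : q ≤ p) {y : Pt D I} (hy : y ∈ q.body) (i : I) :
    q.T i y ⊆ p.T i y := T_subset_on h i fun j _ => hy j

theorem Cond.on_mono {q p : Cond D I} (h : q ≤ p) {J : Set I} (hJ : IsLowerSet J) :
    q.On J ⊆ p.On J := by
  intro y hy
  obtain ⟨y', h1, h2⟩ := q.exists_ext J hJ y hy
  intro i hi
  have h3 := h h1 i
  rwa [h2 i hi, p.T_congr (y' := y) (fun j hj => h2 j (hJ hj.le hi))] at h3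

end

theorem Cond.body_subset_on (p : Cond D I) (J : Set I) : p.body ⊆ p.On J := fun _ h i _ => h i

theorem Cond.on_univ (p : Cond D I) : p.On Set.univ = p.body := by
  ext y; simp [Cond.On, Cond.body]

theorem Cond.le_of_T {q p : Cond D I} (h : ∀ y ∈ q.body, ∀ i, q.T i y ⊆ p.T i y) : q ≤ p :=
  fun y hy i => body_mono (h y hy i) (hy i)

theorem Cond.on_congr (p : Cond D I) {J : Set I} (hJ : IsLowerSet J) {y y' : Pt D I}
    (h : ∀ i ∈ J, y i = y' i) : y ∈ p.On J ↔ y' ∈ p.On J := by
  have key : ∀ y y' : Pt D I, (∀ i ∈ J, y i = y' i) → y ∈ p.On J → y' ∈ p.On J := by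
    intro y y' h hy i hi
    rw [← h i hi, p.T_congr (y' := y) (fun j hj => (h j (hJ hj.le hi)).symm)]
    exact hy i hi
  exact ⟨key y y' h, key y' y fun i hi => (h i hi).symm⟩

theorem Cond.measurableSet_on (p : Cond D I) (J : Set I) : MeasurableSet (p.On J) := by
  have : p.On J = ⋂ i ∈ p.S ∩ J, {y | y i ∈ Men.body D (p.T i y)} := by
    ext y
    simp only [Cond.On, Set.mem_ofPred_eq, Set.mem_iInter]
    constructor
    · intro h i hi
      exact h i hi.2
    · intro h i hi
      by_cases hS : i ∈ p.S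
      · exact h i ⟨hS, hi⟩
      · rw [p.full' i hS y]; simp
  rw [this]
  exact MeasurableSet.biInter (p.scount.mono Set.inter_subset_left) fun i _ =>
    measurableSet_mem_body (measurable_pi_apply i) (p.meas i)

theorem Cond.measurableSet_body (p : Cond D I) : MeasurableSet p.body := by
  rw [← p.on_univ]
  exact p.measurableSet_on _

/-! ### Restriction and gluing -/

/-- The trivial condition. -/
def Cond.one (D : Type) [MeasurableSpace D] [Alph D] (I : Type) [LinearOrder I] : Cond D I where
  T := fun _ _ => Alph.full D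
  S := ∅
  good := fun _ _ => Alph.good_full
  scount := Set.countable_empty
  full' := fun _ _ _ => rfl
  dep := fun _ _ _ _ => rfl
  meas := fun _ => measurable_const

open Classical in
/-- Restriction of a condition to a set of coordinates (meaningful for lower sets `J`). -/
noncomputable def Cond.restr (p : Cond D I) (J : Set I) : Cond D I where
  T := fun i y => if i ∈ J then p.T i y else Alph.full D
  S := {i | i ∈ p.S ∧ (IsLowerSet J → i ∈ J)}
  good := by
    intro i y
    split_ifs
    · exact p.good i y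
    · exact Alph.good_full
  scount := p.scount.mono fun _ h => h.1
  full' := by
    intro i hi y
    split_ifs with h
    · exact p.full' i (fun hS => hi ⟨hS, fun _ => h⟩) y
    · rfl
  dep := by
    intro i y y' h
    split_ifs with hi
    · exact p.dep i y y' fun j hj hji => h j ⟨hj, fun hJ => hJ hji.le hi⟩ hji
    · rfl
  meas := by
    intro i
    by_cases hi : i ∈ J
    · simpa [hi] using p.meas i
    · simp [hi]

open Classical in
/-- Glue a condition `r` on `J` with the part of `p` outside of `J` (meaningful for lower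
sets `J`). -/
noncomputable def Cond.glue (r p : Cond D I) (J : Set I) : Cond D I where
  T := fun i y => if i ∈ J then r.T i y else p.T i y
  S := r.S ∪ p.S
  good := by
    intro i y
    split_ifs
    · exact r.good i y
    · exact p.good i y
  scount := r.scount.union p.scount
  full' := by
    intro i hi y
    rw [Set.mem_union, not_or] at hi
    rw [r.full' i hi.1, p.full' i hi.2, ite_self]
  dep := by
    intro i y y' h
    rw [r.dep i y y' (fun j hj hji => h j (Or.inl hj) hji),
      p.dep i y y' (fun j hj hji => h j (Or.inr hj) hji)]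
  meas := by
    intro i
    by_cases hi : i ∈ J
    · simpa [hi] using r.meas i
    · simpa [hi] using p.meas i

theorem Cond.restr_S {J : Set I} (hJ : IsLowerSet J) (p : Cond D I) : (p.restr J).S = p.S ∩ J := by
  ext i
  simp [Cond.restr, hJ]

theorem Cond.restr_T (p : Cond D I) {J : Set I} {i : I} (hi : i ∈ J) (y : Pt D I) :
    (p.restr J).T i y = p.T i y := by
  simp [Cond.restr, hi]

theorem Cond.restr_T' (p : Cond D I) {J : Set I} {i : I} (hi : i ∉ J) (y : Pt D I) :
    (p.restr J).T i y = Alph.full D := by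
  simp [Cond.restr, hi]

theorem Cond.glue_T (r p : Cond D I) {J : Set I} {i : I} (hi : i ∈ J) (y : Pt D I) :
    (Cond.glue r p J).T i y = r.T i y := by
  simp [Cond.glue, hi]

theorem Cond.glue_T' (r p : Cond D I) {J : Set I} {i : I} (hi : i ∉ J) (y : Pt D I) :
    (Cond.glue r p J).T i y = p.T i y := by
  simp [Cond.glue, hi]

/-- The body of the restriction is the set of partial points. -/
theorem Cond.restr_body (p : Cond D I) (J : Set I) : (p.restr J).body = p.On J := by
  ext y
  constructor
  · intro h i hi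
    have h1 := h i
    rwa [p.restr_T hi] at h1
  · intro h i
    by_cases hi : i ∈ J
    · rw [p.restr_T hi]; exact h i hi
    · rw [p.restr_T' hi]; simp

theorem Cond.restr_below (p : Cond D I) (J : Set I) : (p.restr J).Below J :=
  fun _ hi y => p.restr_T' hi y

theorem Cond.le_restr (p : Cond D I) (J : Set I) : p ≤ p.restr J := by
  intro y hy
  rw [Cond.restr_body]
  exact p.body_subset_on J hy

theorem Cond.restr_mono [WellFoundedLT I] {J : Set I} (hJ : IsLowerSet J) {p q : Cond D I}
    (h : q ≤ p) : q.restr J ≤ p.restr J := by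
  intro y hy
  rw [Cond.restr_body] at hy ⊢
  exact Cond.on_mono h hJ hy

theorem Cond.restr_mono_set {J J' : Set I} (h : J ⊆ J') (p : Cond D I) :
    p.restr J' ≤ p.restr J := by
  intro y hy
  rw [Cond.restr_body] at hy ⊢
  exact fun i hi => hy i (h hi)

theorem Cond.Below.mono {J J' : Set I} (h : J ⊆ J') {p : Cond D I} (hp : p.Below J) :
    p.Below J' := fun i hi y => hp i (fun h' => hi (h h')) y

theorem Cond.below_univ (p : Cond D I) : p.Below Set.univ := fun _ hi => (hi trivial).elim

/-- A condition with support in `J` lives on `J`. -/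
theorem Cond.below_of_supp {p : Cond D I} {J : Set I} (h : p.S ⊆ J) : p.Below J :=
  fun i hi y => p.full' i (fun hS => hi (h hS)) y

/-- Restriction does not change conditions with support in the lower set `J`. -/
theorem Cond.restr_eq_self {p : Cond D I} {J : Set I} (hJ : IsLowerSet J) (h : p.S ⊆ J) :
    p.restr J = p := by
  apply Cond.ext_TS
  · intro i y
    by_cases hi : i ∈ J
    · exact p.restr_T hi y
    · rw [p.restr_T' hi, p.full' i (fun hS => hi (h hS)) y]
  · rw [p.restr_S hJ]
    exact Set.inter_eq_left.2 h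

/-- Restriction to the smaller of two lower sets. -/
theorem Cond.restr_restr {p : Cond D I} {J J' : Set I} (hJ : IsLowerSet J) (hJ' : IsLowerSet J')
    (h : J ⊆ J') : (p.restr J').restr J = p.restr J := by
  apply Cond.ext_TS
  · intro i y
    by_cases hi : i ∈ J
    · rw [Cond.restr_T _ hi, Cond.restr_T _ (h hi), Cond.restr_T _ hi]
    · rw [Cond.restr_T' _ hi, Cond.restr_T' _ hi]
  · rw [Cond.restr_S hJ, Cond.restr_S hJ', Cond.restr_S hJ]
    ext i
    constructor
    · rintro ⟨⟨h1, _⟩, h2⟩
      exact ⟨h1, h2⟩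
    · rintro ⟨h1, h2⟩
      exact ⟨⟨h1, h h2⟩, h2⟩

/-- For a condition below `J`, points and partial points are the same. -/
theorem Cond.Below.body_eq {J : Set I} {p : Cond D I} (hp : p.Below J) : p.body = p.On J := by
  apply Set.Subset.antisymm (p.body_subset_on J)
  intro y hy i
  by_cases hi : i ∈ J
  · exact hy i hi
  · rw [hp i hi]; simp

theorem Cond.Below.depOn {J : Set I} (hJ : IsLowerSet J) {p : Cond D I} (hp : p.Below J) :
    DepOn J p.body := by
  intro y y' h
  rw [hp.body_eq]
  exact p.on_congr hJ h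

theorem Cond.Below.restr_le {J : Set I} {p : Cond D I} (hp : p.Below J) : p.restr J ≤ p := by
  intro y hy
  rw [Cond.restr_body] at hy
  rw [hp.body_eq]
  exact hy

theorem Cond.mem_glue_body (r p : Cond D I) (J : Set I) (y : Pt D I) :
    y ∈ (Cond.glue r p J).body ↔ y ∈ r.On J ∧ ∀ i, i ∉ J → y i ∈ Men.body D (p.T i y) := by
  constructor
  · intro h
    refine ⟨fun i hi => ?_, fun i hi => ?_⟩
    · have := h i
      rwa [Cond.glue_T _ _ hi] at this
    · have := h i
      rwa [Cond.glue_T' _ _ hi] at this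
  · rintro ⟨h1, h2⟩ i
    by_cases hi : i ∈ J
    · rw [Cond.glue_T _ _ hi]; exact h1 i hi
    · rw [Cond.glue_T' _ _ hi]; exact h2 i hi

theorem Cond.glue_le_left {J : Set I} {r p : Cond D I} (hr : r.Below J) :
    Cond.glue r p J ≤ r := by
  intro y hy
  rw [Cond.mem_glue_body] at hy
  rw [hr.body_eq]
  exact hy.1

theorem Cond.glue_le_right {J : Set I} {r p : Cond D I} (hr : r.Below J) (h : r ≤ p.restr J) :
    Cond.glue r p J ≤ p := by
  intro y hy
  have h1 : y ∈ (p.restr J).body := h (Cond.glue_le_left hr hy)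
  rw [Cond.restr_body] at h1
  rw [Cond.mem_glue_body] at hy
  intro i
  by_cases hi : i ∈ J
  · exact h1 i hi
  · exact hy.2 i hi

theorem Cond.le_glue_restr {J : Set I} {r p : Cond D I} : r ≤ (Cond.glue r p J).restr J := by
  intro y hy
  rw [Cond.restr_body]
  intro i hi
  rw [Cond.glue_T _ _ hi]
  exact hy i

theorem Cond.glue_restr_le {J : Set I} {r p : Cond D I} (hr : r.Below J) :
    (Cond.glue r p J).restr J ≤ r := by
  intro y hy
  rw [Cond.restr_body] at hy
  rw [hr.body_eq]
  intro i hi
  have := hy i hi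
  rwa [Cond.glue_T _ _ hi] at this

theorem Cond.le_glue {J : Set I} {r p q : Cond D I} (h1 : q ≤ r) (h2 : q ≤ p) :
    q ≤ Cond.glue r p J := by
  intro y hy
  rw [Cond.mem_glue_body]
  exact ⟨fun i _ => h1 hy i, fun i _ => h2 hy i⟩

theorem Cond.glue_below {J J' : Set I} {r p : Cond D I} (hJJ : J ⊆ J')
    (hp : p.Below J') : (Cond.glue r p J).Below J' := by
  intro i hi y
  have hiJ : i ∉ J := fun h => hi (hJJ h)
  rw [Cond.glue_T' _ _ hiJ]
  exact hp i hi y

/-- Mixing: after `J` use the condition number `c y`. -/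
theorem Cond.exists_mix {J : Set I} (hJ : IsLowerSet J) (r : Cond D I) (c : Pt D I → ℕ)
    (hc : Measurable c) (C : Set I) (hC : C.Countable) (hCJ : C ⊆ J) (hd : DepFun C c)
    (P : ℕ → Cond D I) : ∃ q : Cond D I,
      (∀ i ∈ J, ∀ y, q.T i y = r.T i y) ∧ ∀ i, i ∉ J → ∀ y, q.T i y = (P (c y)).T i y := by
  classical
  refine ⟨⟨fun i y => if i ∈ J then r.T i y else (P (c y)).T i y,
    r.S ∪ C ∪ ⋃ n, (P n).S, ?_, ?_, ?_, ?_, ?_⟩, ?_, ?_⟩
  · intro i y
    split_ifs
    · exact r.good i y
    · exact (P (c y)).good i y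
  · exact (r.scount.union hC).union (Set.countable_iUnion fun n => (P n).scount)
  · intro i hi y
    simp only [Set.mem_union, Set.mem_iUnion, not_or, not_exists] at hi
    rw [r.full' i hi.1.1, (P (c y)).full' i (hi.2 _), ite_self]
  · intro i y y' h
    by_cases hi : i ∈ J
    · simp only [hi, if_true]
      exact r.dep i y y' fun j hj hji => h j (Or.inl (Or.inl hj)) hji
    · simp only [hi, if_false]
      have hcc : c y = c y' := by
        apply hd
        intro j hj
        apply h j (Or.inl (Or.inr hj))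
        by_contra hji
        exact hi (hJ (not_lt.1 hji) (hCJ hj))
      rw [hcc]
      exact (P (c y')).dep i y y' fun j hj hji =>
        h j (Or.inr (Set.mem_iUnion.2 ⟨_, hj⟩)) hji
  · intro i
    by_cases hi : i ∈ J
    · simpa [hi] using r.meas i
    · simp only [hi, if_false]
      intro B hB
      have : (fun y => (P (c y)).T i y) ⁻¹' B = ⋃ n, (c ⁻¹' {n}) ∩ ((P n).T i ⁻¹' B) := by
        ext y
        simp
      rw [this]
      exact MeasurableSet.iUnion fun n =>
        (hc (measurableSet_singleton n)).inter ((P n).meas i hB)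
  · intro i hi y
    simp [hi]
  · intro i hi y
    simp [hi]

end

/-! ### Measurable sets depend on countably many coordinates -/

theorem exists_countable_depOn {D I : Type} [MeasurableSpace D] {A : Set (Pt D I)}
    (hA : MeasurableSet A) : ∃ C : Set I, C.Countable ∧ DepOn C A := by
  have h0 : (MeasurableSpace.pi : MeasurableSpace (Pt D I)) =
      MeasurableSpace.generateFrom
        {B : Set (Pt D I) | ∃ (i : I) (s : Set (Br D)), MeasurableSet s ∧ B = {y | y i ∈ s}} := by
    apply le_antisymm
    · apply iSup_le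
      intro i
      rintro B ⟨s, hs, rfl⟩
      exact MeasurableSpace.measurableSet_generateFrom ⟨i, s, hs, rfl⟩
    · apply MeasurableSpace.generateFrom_le
      rintro B ⟨i, s, hs, rfl⟩
      exact measurable_pi_apply i hs
  have hA2 : @MeasurableSet _ (MeasurableSpace.generateFrom
        {B : Set (Pt D I) | ∃ (i : I) (s : Set (Br D)), MeasurableSet s ∧ B = {y | y i ∈ s}}) A := by
    rw [← h0]
    exact hA
  clear hA h0
  induction A, hA2 using MeasurableSpace.generateFrom_induction with
  | hC B hB =>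
    obtain ⟨i, s, _, rfl⟩ := hB
    refine ⟨{i}, Set.countable_singleton i, ?_⟩
    intro y y' h
    simp only [Set.mem_ofPred_eq]
    rw [h i rfl]
  | empty => exact ⟨∅, Set.countable_empty, fun y y' _ => Iff.rfl⟩
  | compl B _ ih =>
    obtain ⟨C, h1, h2⟩ := ih
    exact ⟨C, h1, fun y y' h => not_congr (h2 y y' h)⟩
  | iUnion f _ ih =>
    choose C h1 h2 using ih
    refine ⟨⋃ n, C n, Set.countable_iUnion h1, fun y y' h => ?_⟩
    simp only [Set.mem_iUnion]
    exact exists_congr fun n => h2 n y y' fun i hi => h i (Set.mem_iUnion.2 ⟨n, hi⟩)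

end Pool.Agent.Men
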