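import Mathlib

/-!
# Squad MEN, definitions: trees, conditions, fronts

Two kinds of trees (Sacks trees: alphabet `Fin 2`; Miller trees: alphabet `ℕ`), conditions of the two
countable support iterations along a well order `I` (families of trees, measurable in the previous
coordinates).
-/

open MeasureTheory Set

namespace Pool.Agent.Men

abbrev Node := List ℕ

instance : MeasurableSpace Node := ⊤
instance : DiscreteMeasurableSpace Node := ⟨fun _ => trivial⟩

/-- Perfect trees of binary sequences. -/
structure Perf (T : Set Node) : Prop where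
  nil : [] ∈ T
  down : ∀ σ a, σ ++ [a] ∈ T → σ ∈ T
  bdd : ∀ σ a, σ ++ [a] ∈ T → a < 2
  split : ∀ σ ∈ T, ∃ τ ∈ T, σ <+: τ ∧ τ ++ [0] ∈ T ∧ τ ++ [1] ∈ T

/-- Superperfect trees. -/
structure Supf (T : Set Node) : Prop where
  nil : [] ∈ T
  down : ∀ σ a, σ ++ [a] ∈ T → σ ∈ T
  split : ∀ σ ∈ T, ∃ τ ∈ T, σ <+: τ ∧ {a | τ ++ [a] ∈ T}.Infinite

/-- Trees without terminal nodes. -/
structure Tree (T : Set Node) : Prop where
  nil : [] ∈ T
  down : ∀ σ a, σ ++ [a] ∈ T → σ ∈ T
  ext : ∀ σ ∈ T, ∃ a, σ ++ [a] ∈ T

/-- The part of the tree compatible with the node `τ`. -/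
def sub (T : Set Node) (τ : Node) : Set Node := {σ | σ ∈ T ∧ (σ <+: τ ∨ τ <+: σ)}

/-- Alphabets: a countable set of digits, a class of good trees and a full tree. -/
class Alph (D : Type) [MeasurableSpace D] where
  toN : D → ℕ
  inj : Function.Injective toN
  meas : ∀ s : Set D, MeasurableSet s
  inhab : D
  Good : Set Node → Prop
  full : Set Node
  mem_full : ∀ σ : Node, σ ∈ full ↔ ∀ a ∈ σ, a ∈ Set.range toN
  good_full : Good full
  tree : ∀ T, Good T → Tree T
  sub_full : ∀ T, Good T → T ⊆ full
  good_sub : ∀ T, Good T → ∀ τ ∈ T, Good (sub T τ)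
  meas_good : MeasurableSet {T : Set Node | Good T}

/-- Branches with digits in `D`. -/
abbrev Br (D : Type) := ℕ → D

/-- Points: one branch for every coordinate. -/
abbrev Pt (D : Type) (I : Type) := I → Br D

section
variable {D : Type} [MeasurableSpace D] [Alph D] {I : Type} [LinearOrder I]

/-- Initial segment of length `m` of a branch. -/
def pre (t : Br D) (m : ℕ) : Node := (List.range m).map fun i => Alph.toN (t i)

/-- The set of branches of a tree. -/
def body (D : Type) [MeasurableSpace D] [Alph D] (T : Set Node) : Set (Br D) :=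
  {t | ∀ m, pre t m ∈ T}

/-! ### Conditions -/

/-- Conditions of the iteration along the linear order `I`: a tree for every coordinate, which is a
measurable function of the previous coordinates in a countable support; outside of the support the
tree is full. -/
structure Cond (D : Type) [MeasurableSpace D] [Alph D] (I : Type) [LinearOrder I] where
  T : I → Pt D I → Set Node
  S : Set I
  good : ∀ i y, Alph.Good D (T i y)
  scount : S.Countable
  full' : ∀ i, i ∉ S → ∀ y, T i y = Alph.full D
  dep : ∀ i y y', (∀ j ∈ S, j < i → y j = y' j) → T i y = T i y'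
  meas : ∀ i, Measurable (T i)

/-- The set of points of a condition. -/
def Cond.body (p : Cond D I) : Set (Pt D I) := {y | ∀ i, y i ∈ Men.body D (p.T i y)}

/-- `q ≤ p` iff the body of `q` is contained in the body of `p`. -/
instance : Preorder (Cond D I) where
  le q p := q.body ⊆ p.body
  le_refl p := Set.Subset.refl _
  le_trans _ _ _ h h' := Set.Subset.trans h h'

theorem Cond.le_def {q p : Cond D I} : q ≤ p ↔ q.body ⊆ p.body := Iff.rfl

/-- The condition lives on the coordinates in `J`. -/
def Cond.Below (p : Cond D I) (J : Set I) : Prop := ∀ i, i ∉ J → ∀ y, p.T i y = Alph.full D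

/-- The point `y` belongs to the condition as far as the coordinates in `J` are concerned
(meaningful for lower sets `J`). -/
def Cond.On (p : Cond D I) (J : Set I) : Set (Pt D I) := {y | ∀ i ∈ J, y i ∈ Men.body D (p.T i y)}

end

/-- A set of points depends only on the coordinates in `J`. -/
def DepOn {D I : Type} (J : Set I) (A : Set (Pt D I)) : Prop :=
  ∀ y y' : Pt D I, (∀ i ∈ J, y i = y' i) → (y ∈ A ↔ y' ∈ A)

/-- A function on points depends only on the coordinates in `J`. -/
def DepFun {D I : Type} {β : Type*} (J : Set I) (f : Pt D I → β) : Prop :=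
  ∀ y y' : Pt D I, (∀ i ∈ J, y i = y' i) → f y = f y'

end Pool.Agent.Men
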