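import Pool.Agent.Helper86_Men.Base

/-!
# Squad MEN, definitions II

Measurable choice from countable types; the canonical nodes of perfect trees, cones and the fusion
order of the Sacks side; hulls and filter valued generic extensions of the Miller side.
-/

open MeasureTheory Set

namespace Pool.Agent.Men

/-! ### Choice from encodable types -/

open Classical in
/-- The element of least code with the property `P`. -/
noncomputable def pick {β : Type*} [Encodable β] [Inhabited β] (P : β → Prop) : β :=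
  if h : ∃ n : ℕ, ∃ b, Encodable.encode b = n ∧ P b then (Nat.find_spec h).choose else default

theorem pick_spec {β : Type*} [Encodable β] [Inhabited β] {P : β → Prop} (h : ∃ b, P b) :
    P (pick P) := by
  classical
  have h' : ∃ n : ℕ, ∃ b, Encodable.encode b = n ∧ P b := by
    obtain ⟨b, hb⟩ := h
    exact ⟨_, b, rfl, hb⟩
  unfold pick
  rw [dif_pos h']
  exact (Nat.find_spec h').choose_spec.2

theorem pick_min {β : Type*} [Encodable β] [Inhabited β] {P : β → Prop} {b : β} (hb : P b) :
    Encodable.encode (pick P) ≤ Encodable.encode b := by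
  classical
  have h' : ∃ n : ℕ, ∃ b, Encodable.encode b = n ∧ P b := ⟨_, b, rfl, hb⟩
  unfold pick
  rw [dif_pos h', (Nat.find_spec h').choose_spec.1]
  exact Nat.find_min' h' ⟨b, rfl, hb⟩

theorem pick_default {β : Type*} [Encodable β] [Inhabited β] {P : β → Prop} (h : ¬ ∃ b, P b) :
    pick P = default := by
  classical
  have h' : ¬ ∃ n : ℕ, ∃ b, Encodable.encode b = n ∧ P b := by
    rintro ⟨_, b, _, hb⟩
    exact h ⟨b, hb⟩
  unfold pick
  rw [dif_neg h']

theorem pick_congr {β : Type*} [Encodable β] [Inhabited β] {P Q : β → Prop}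
    (h : ∀ b, P b ↔ Q b) : pick P = pick Q := by
  have : P = Q := funext fun b => propext (h b)
  rw [this]

theorem measurableSet_pick {Ω β : Type*} [MeasurableSpace Ω] [Encodable β] [Inhabited β]
    {P : Ω → β → Prop} (hP : ∀ b, MeasurableSet {ω | P ω b}) (b : β) :
    MeasurableSet {ω | pick (P ω) = b} := by
  classical
  have h1 : {ω | pick (P ω) = b} =
      ({ω | P ω b} ∩ ⋂ b' : {b' : β // Encodable.encode b' < Encodable.encode b},
        {ω | P ω b'.1}ᶜ) ∪ ((⋂ b' : β, {ω | P ω b'}ᶜ) ∩ {_ω | b = default}) := by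
    ext ω
    simp only [Set.mem_ofPred_eq, Set.mem_union, Set.mem_inter_iff, Set.mem_iInter,
      Set.mem_compl_iff]
    constructor
    · rintro rfl
      by_cases h : ∃ b, P ω b
      · left
        refine ⟨pick_spec h, fun b' hb' => ?_⟩
        have := pick_min hb'
        have := b'.2
        omega
      · right
        exact ⟨fun b hb => h ⟨b, hb⟩, pick_default h⟩
    · rintro (⟨h1, h2⟩ | ⟨h1, h2⟩)
      · have h3 := pick_min h1
        have h4 : P ω (pick (P ω)) := pick_spec ⟨b, h1⟩
        rcases lt_or_eq_of_le h3 with h5 | h5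
        · exact (h2 ⟨_, h5⟩ h4).elim
        · exact Encodable.encode_injective h5
      · rw [pick_default (fun ⟨b, hb⟩ => h1 b hb), h2]
  rw [h1]
  refine ((hP b).inter (MeasurableSet.iInter fun b' => (hP _).compl)).union
    ((MeasurableSet.iInter fun b' => (hP _).compl).inter ?_)
  by_cases h : b = default
  · simp [h]
  · simp [h]

/-! ### The Sacks side -/

/-- Splitting nodes of binary trees. -/
def Spl (T : Set Node) (τ : Node) : Prop := τ ++ [0] ∈ T ∧ τ ++ [1] ∈ T

/-- The first splitting node above `τ`. -/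
noncomputable def spl (T : Set Node) (τ : Node) : Node :=
  pick fun σ => τ <+: σ ∧ Spl T σ ∧ ∀ ρ, τ <+: ρ → ρ <+: σ → Spl T ρ → ρ = σ

/-- The canonical nodes of a perfect tree: `nd T s` is the node just after the splitting node
number `s.length`, reached by the choices in `s` (the LAST choice is the FIRST element
of `s`). -/
noncomputable def nd (T : Set Node) : List ℕ → Node
  | [] => []
  | a :: s => spl T (nd T s) ++ [a]

/-- Binary words of length `n`. -/
def Wd (n : ℕ) : Set (List ℕ) := {s | s.length = n ∧ ∀ a ∈ s, a < 2}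

section
variable {I : Type} [LinearOrder I]

/-- The choices of words of length `n` at the coordinates in `F`. -/
def Fronts (F : Finset I) (n : ℕ) : Set (I → List ℕ) :=
  {c | (∀ i ∈ F, c i ∈ Wd n) ∧ ∀ i, i ∉ F → c i = []}

/-- The piece of the condition `q` given by the canonical nodes `c i`, `i ∈ F`. -/
def cone (q : Cond (Fin 2) I) (F : Finset I) (c : I → List ℕ) : Set (Pt (Fin 2) I) :=
  {x | x ∈ q.body ∧ ∀ i ∈ F, pre (x i) (nd (q.T i x) (c i)).length = nd (q.T i x) (c i)}

/-- The fusion order: `q'` is below `q` and keeps the canonical nodes of level `n` at the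
coordinates in `F`. -/
def LeF (q' q : Cond (Fin 2) I) (F : Finset I) (n : ℕ) : Prop :=
  q' ≤ q ∧ ∀ i ∈ F, ∀ x ∈ q'.On (Set.Iio i), ∀ s ∈ Wd n, nd (q.T i x) s ∈ q'.T i x

end

/-- `D` is dense below `r`. -/
def DenseBelow {Q : Type} [Preorder Q] (D : Set Q) (r : Q) : Prop := ∀ r' ≤ r, ∃ d ∈ D, d ≤ r'

/-! ### Nodes of one coordinate (both sides) -/

section
variable {D : Type} [MeasurableSpace D] [Alph D] {I : Type} [LinearOrder I]

open Classical in
/-- Restriction of the tree at the coordinate `j` to the nodes compatible with `τ`. -/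
noncomputable def Cond.nodeR (p : Cond D I) (j : I) (τ : Node) : Cond D I where
  T := fun i y => if i = j ∧ τ ∈ p.T i y then sub (p.T i y) τ else p.T i y
  S := insert j p.S
  good := by
    intro i y
    split_ifs with h
    · exact Alph.good_sub _ (p.good i y) _ h.2
    · exact p.good i y
  scount := p.scount.insert j
  full' := by
    intro i hi y
    rw [Set.mem_insert_iff, not_or] at hi
    rw [if_neg (fun h => hi.1 h.1)]
    exact p.full' i hi.2 y
  dep := by
    intro i y y' h
    rw [p.dep i y y' fun k hk hki => h k (Set.mem_insert_of_mem _ hk) hki]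
  meas := by
    intro i
    by_cases hi : i = j
    · subst hi
      have : (fun y => if i = i ∧ τ ∈ p.T i y then sub (p.T i y) τ else p.T i y) =
          fun y => if τ ∈ p.T i y then sub (p.T i y) τ else p.T i y := by
        funext y; simp
      rw [this]
      exact Measurable.ite ((measurableSet_mem_node τ).preimage (p.meas i))
        (measurable_sub measurable_const (p.meas i)) (p.meas i)
    · have : (fun y => if i = j ∧ τ ∈ p.T i y then sub (p.T i y) τ else p.T i y) = p.T i := by
        funext y; simp [hi]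
      rw [this]
      exact p.meas i

theorem Cond.nodeR_T_ne (p : Cond D I) {i j : I} (h : i ≠ j) (τ : Node) (y : Pt D I) :
    (p.nodeR j τ).T i y = p.T i y := by
  simp [Cond.nodeR, h]

theorem Cond.nodeR_T_pos (p : Cond D I) (j : I) {τ : Node} {y : Pt D I} (h : τ ∈ p.T j y) :
    (p.nodeR j τ).T j y = sub (p.T j y) τ := by
  simp [Cond.nodeR, h]

theorem Cond.nodeR_T_neg (p : Cond D I) (j : I) {τ : Node} {y : Pt D I} (h : τ ∉ p.T j y) :
    (p.nodeR j τ).T j y = p.T j y := by
  simp [Cond.nodeR, h]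

theorem Cond.nodeR_le (p : Cond D I) (j : I) (τ : Node) : p.nodeR j τ ≤ p := by
  intro y hy i
  have h1 := hy i
  by_cases hi : i = j
  · subst hi
    by_cases h : τ ∈ p.T i y
    · rw [p.nodeR_T_pos i h] at h1
      exact body_mono (sub_subset _ _) h1
    · rwa [p.nodeR_T_neg i h] at h1
  · rwa [p.nodeR_T_ne hi] at h1

theorem Cond.nodeR_below (p : Cond D I) {J : Set I} (hp : p.Below J) {j : I} (hj : j ∈ J)
    (τ : Node) : (p.nodeR j τ).Below J := by
  intro i hi y
  have h : i ≠ j := fun h => hi (h ▸ hj)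
  rw [p.nodeR_T_ne h]
  exact hp i hi y

/-- The coordinate `j` of the points of `p.nodeR j τ` passes through `τ` if possible. -/
theorem Cond.mem_nodeR_body (p : Cond D I) (j : I) (τ : Node) (y : Pt D I) (h : τ ∈ p.T j y) :
    y ∈ (p.nodeR j τ).body ↔ y ∈ p.body ∧ pre (y j) τ.length = τ := by
  constructor
  · intro hy
    refine ⟨p.nodeR_le j τ hy, ?_⟩
    have h1 := hy j
    rw [p.nodeR_T_pos j h] at h1
    exact (mem_body_sub.1 h1).2
  · rintro ⟨h1, h2⟩ i
    by_cases hi : i = j
    · subst hi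
      rw [p.nodeR_T_pos i h]
      exact mem_body_sub.2 ⟨h1 i, h2⟩
    · rw [p.nodeR_T_ne hi]
      exact h1 i

end

/-! ### The Miller side -/

section
variable {I : Type} [LinearOrder I]

/-- At the coordinate `j` the node `σ` is the stem of the tree and an infinitely splitting node. -/
def SplitAt (p : Cond ℕ I) (j : I) (σ : Node) : Prop :=
  ∀ y ∈ p.On (Set.Iio j), (∀ τ ∈ p.T j y, τ <+: σ ∨ σ <+: τ) ∧ {k | σ ++ [k] ∈ p.T j y}.Infinite

/-- The lower sets used by hulls. -/
def Lev (C J L : Set I) : Prop :=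
  IsLowerSet L ∧ L ⊆ J ∧ (L = ∅ ∨ L = J ∨ ∃ j ∈ C, L = Set.Iio j ∨ L = Set.Iic j)

/-- Countable hulls of Miller conditions. -/
structure MH (J C : Set I) (P : Set (Cond ℕ I)) : Prop where
  lowerJ : IsLowerSet J
  countC : C.Countable
  countP : P.Countable
  subC : C ⊆ J
  suppC : ∀ p ∈ P, p.S ⊆ C
  one : Cond.one ℕ I ∈ P
  restr : ∀ p ∈ P, ∀ L, Lev C J L → p.restr L ∈ P
  glue : ∀ r ∈ P, ∀ p ∈ P, ∀ L, Lev C J L → Cond.glue r p L ∈ P
  node : ∀ p ∈ P, ∀ j ∈ C, ∀ τ, p.nodeR j τ ∈ P

/-- Countable families of dense subsets of a hull. -/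
structure DF (P : Set (Cond ℕ I)) (DD : Set (Set (Cond ℕ I))) : Prop where
  count : DD.Countable
  sub : ∀ D ∈ DD, D ⊆ P
  dense : ∀ D ∈ DD, ∀ p ∈ P, ∃ d ∈ D, d ≤ p

/-- For every point `y` of `q` the set `g y` is a filter of conditions of the hull below `L`,
generic for the dense sets in `DD`, and depends measurably on `y`. -/
structure Filt (C : Set I) (P : Set (Cond ℕ I)) (DD : Set (Set (Cond ℕ I))) (L : Set I)
    (q : Cond ℕ I) (g : Pt ℕ I → Set (Cond ℕ I)) : Prop where
  supp : q.S ⊆ C ∩ L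
  mem : ∀ y, ∀ c ∈ g y, c ∈ P ∧ c.S ⊆ L
  ne : ∀ y ∈ q.body, (g y).Nonempty
  bod : ∀ y ∈ q.body, ∀ c ∈ g y, y ∈ c.body
  meet : ∀ y ∈ q.body, ∀ c ∈ g y, ∀ c' ∈ g y, ∃ c'' ∈ g y, c'' ≤ c ∧ c'' ≤ c'
  up : ∀ y ∈ q.body, ∀ c ∈ g y, ∀ c' ∈ P, c'.S ⊆ L → c ≤ c' → c' ∈ g y
  gen : ∀ y ∈ q.body, ∀ D ∈ DD, ∀ p ∈ P, p.restr L ∈ g y → ∃ d ∈ D, d ≤ p ∧ d.restr L ∈ g y
  meas : ∀ c, MeasurableSet {y | c ∈ g y}
  dep : ∀ y y' : Pt ℕ I, (∀ i ∈ C ∩ L, y i = y' i) → g y = g y'

end

end Pool.Agent.Men
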