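import Pool.Agent.Helper86_Men.Defs2

/-!
# Squad MEN, statements of the Miller side
-/

open MeasureTheory Set

namespace Pool.Agent.Men

section
variable (I : Type) [LinearOrder I] [WellFoundedLT I]

/-- Trees of marked nodes at one coordinate (module TREE): states `s` carry nodes `nod s`;
`St y s a s'` means that the successor number `a` of the node of `s` may be continued by the
state `s'`. -/
def TreeStmt : Prop := ∀ (j : I) (C : Set I), C.Countable → ∀ q0 : Cond ℕ I,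
  q0.S ⊆ C ∩ Set.Iio j → ∀ (S : Type) [Countable S] (nod : S → Node) (V : S → Set (Pt ℕ I))
  (St : S → ℕ → S → Set (Pt ℕ I)) (s0 : Pt ℕ I → S),
  (∀ s a s', MeasurableSet (St s a s')) → (∀ s a s', DepOn (C ∩ Set.Iio j) (St s a s')) →
  (∀ s, MeasurableSet {y | s0 y = s}) → DepFun (C ∩ Set.Iio j) s0 →
  (∀ y ∈ q0.body, y ∈ V (s0 y)) →
  (∀ y ∈ q0.body, ∀ s, y ∈ V s → {a | ∃ s', y ∈ St s a s'}.Infinite) →
  (∀ y ∈ q0.body, ∀ s a s', y ∈ V s → y ∈ St s a s' → y ∈ V s' ∧ nod s ++ [a] <+: nod s') →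
  ∃ (q : Cond ℕ I) (st : ℕ → Pt ℕ I → S), q.S ⊆ (C ∩ Set.Iio j) ∪ {j} ∧
    (∀ i < j, ∀ y, q.T i y = q0.T i y) ∧
    (∀ k s, MeasurableSet {y | st k y = s}) ∧
    (∀ k, DepFun ((C ∩ Set.Iio j) ∪ {j}) (st k)) ∧
    (∀ y, st 0 y = s0 y) ∧
    ∀ y ∈ q.body, ∀ k, y ∈ V (st k y) ∧
      y ∈ St (st k y) (y j (nod (st k y)).length) (st (k + 1) y) ∧
      pre (y j) (nod (st k y)).length = nod (st k y)

variable {I}

/-- Relative generic extension up to the level `L`. -/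
def REL (C J : Set I) (P : Set (Cond ℕ I)) (DD : Set (Set (Cond ℕ I))) (L : Set I) : Prop :=
  ∀ L0, Lev C J L0 → L0 ⊆ L → ∀ (q0 : Cond ℕ I) (g0 : Pt ℕ I → Set (Cond ℕ I))
    (π : Pt ℕ I → Cond ℕ I), Filt C P DD L0 q0 g0 → (∀ y, π y ∈ P ∧ (π y).S ⊆ L) →
    (∀ c, MeasurableSet {y | π y = c}) → DepFun (C ∩ L0) π →
    (∀ y ∈ q0.body, (π y).restr L0 ∈ g0 y) →
    ∃ (q : Cond ℕ I) (g : Pt ℕ I → Set (Cond ℕ I)), Filt C P DD L q g ∧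
      (∀ i ∈ L0, ∀ y, q.T i y = q0.T i y) ∧ (∀ y ∈ q.body, π y ∈ g y) ∧
      ∀ y ∈ q.body, ∀ c ∈ g y, c.restr L0 ∈ g0 y

/-- The filter at the level `∅` (module REL0). -/
def Filt0Stmt (I : Type) [LinearOrder I] [WellFoundedLT I] : Prop :=
  ∀ (J C : Set I) (P : Set (Cond ℕ I)) (DD : Set (Set (Cond ℕ I))), MH J C P → DF P DD →
    Filt C P DD ∅ (Cond.one ℕ I) (fun _ => {Cond.one ℕ I})

/-- Enlarging the level without new coordinates of `C` (module REL0). -/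
def RelTrivStmt (I : Type) [LinearOrder I] [WellFoundedLT I] : Prop :=
  ∀ (J C : Set I) (P : Set (Cond ℕ I)) (DD : Set (Set (Cond ℕ I))), MH J C P → DF P DD →
    ∀ L L', Lev C J L → Lev C J L' → L ⊆ L' → C ∩ L' ⊆ L →
      ∀ q g, Filt C P DD L q g → Filt C P DD L' q g

/-- One coordinate (module RELS, from TREE). -/
def RelSuccStmt (I : Type) [LinearOrder I] [WellFoundedLT I] : Prop :=
  ∀ (J C : Set I) (P : Set (Cond ℕ I)) (DD : Set (Set (Cond ℕ I))), MH J C P → DF P DD →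
    ∀ j ∈ C, ∀ (q0 : Cond ℕ I) (g0 : Pt ℕ I → Set (Cond ℕ I)) (π : Pt ℕ I → Cond ℕ I),
    Filt C P DD (Set.Iio j) q0 g0 → (∀ y, π y ∈ P ∧ (π y).S ⊆ Set.Iic j) →
    (∀ c, MeasurableSet {y | π y = c}) → DepFun (C ∩ Set.Iio j) π →
    (∀ y ∈ q0.body, (π y).restr (Set.Iio j) ∈ g0 y) →
    ∃ (q : Cond ℕ I) (g : Pt ℕ I → Set (Cond ℕ I)), Filt C P DD (Set.Iic j) q g ∧
      (∀ i ∈ Set.Iio j, ∀ y, q.T i y = q0.T i y) ∧ (∀ y ∈ q.body, π y ∈ g y) ∧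
      ∀ y ∈ q.body, ∀ c ∈ g y, c.restr (Set.Iio j) ∈ g0 y

/-- Limits (module LIM): levels `L 0 ⊆ L 1 ⊆ ...` exhausting the coordinates of `C` below `Lt`;
states `s` carry conditions `cs s`; a state at stage `k` is continued by a state at stage `k + 1`
within every filter at the level `L k`. -/
def LimStmt (I : Type) [LinearOrder I] [WellFoundedLT I] : Prop :=
  ∀ (J C : Set I) (P : Set (Cond ℕ I)) (DD : Set (Set (Cond ℕ I))), MH J C P → DF P DD →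
    ∀ (Lt : Set I) (L : ℕ → Set I), Lev C J Lt → (∀ k, Lev C J (L k)) → (∀ k, L k ⊆ L (k + 1)) →
    (∀ k, L k ⊆ Lt) → (C ∩ Lt ⊆ ⋃ k, L k) → (∀ k, REL C J P DD (L (k + 1))) →
    ∀ (S : Type) [Countable S] (cs : S → Cond ℕ I) (Inv : ℕ → Set S) (St : ℕ → S → S → Prop),
    (∀ s, cs s ∈ P ∧ (cs s).S ⊆ Lt) →
    (∀ k q g, Filt C P DD (L k) q g → ∀ y ∈ q.body, ∀ s ∈ Inv k, (cs s).restr (L k) ∈ g y →
      ∃ s' ∈ Inv (k + 1), St k s s' ∧ cs s' ≤ cs s ∧ (cs s').restr (L k) ∈ g y) →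
    ∀ (q0 : Cond ℕ I) (g0 : Pt ℕ I → Set (Cond ℕ I)) (s0 : Pt ℕ I → S),
    Filt C P DD (L 0) q0 g0 → (∀ s, MeasurableSet {y | s0 y = s}) → DepFun (C ∩ L 0) s0 →
    (∀ y ∈ q0.body, s0 y ∈ Inv 0 ∧ (cs (s0 y)).restr (L 0) ∈ g0 y) →
    ∃ (q : Cond ℕ I) (g : ℕ → Pt ℕ I → Set (Cond ℕ I)) (st : ℕ → Pt ℕ I → S),
      q.S ⊆ C ∩ Lt ∧ (∀ i ∈ L 0, ∀ y, q.T i y = q0.T i y) ∧ g 0 = g0 ∧
      (∀ k, Filt C P DD (L k) (q.restr (L k)) (g k)) ∧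
      (∀ k, ∀ y ∈ q.body, ∀ c ∈ g (k + 1) y, c.restr (L k) ∈ g k y) ∧
      (∀ k s, MeasurableSet {y | st k y = s}) ∧ (∀ k, DepFun (C ∩ L k) (st k)) ∧
      (∀ y, st 0 y = s0 y) ∧
      ∀ y ∈ q.body, ∀ k, st k y ∈ Inv k ∧ St k (st k y) (st (k + 1) y) ∧
        cs (st (k + 1) y) ≤ cs (st k y) ∧ (cs (st k y)).restr (L k) ∈ g k y ∧
        (cs (st (k + 1) y)).restr (L k) ∈ g k y ∧ y ∈ (cs (st k y)).body

/-- The filter at a limit (module RELL, from LIM). -/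
def RelLimStmt (I : Type) [LinearOrder I] [WellFoundedLT I] : Prop :=
  ∀ (J C : Set I) (P : Set (Cond ℕ I)) (DD : Set (Set (Cond ℕ I))), MH J C P → DF P DD →
    ∀ (Lt : Set I) (L : ℕ → Set I), Lev C J Lt → (∀ k, Lev C J (L k)) → (∀ k, L k ⊆ L (k + 1)) →
    (∀ k, L k ⊆ Lt) → (C ∩ Lt ⊆ ⋃ k, L k) → (∀ k, REL C J P DD (L (k + 1))) →
    ∀ (q0 : Cond ℕ I) (g0 : Pt ℕ I → Set (Cond ℕ I)) (π : Pt ℕ I → Cond ℕ I),
    Filt C P DD (L 0) q0 g0 → (∀ y, π y ∈ P ∧ (π y).S ⊆ Lt) →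
    (∀ c, MeasurableSet {y | π y = c}) → DepFun (C ∩ L 0) π →
    (∀ y ∈ q0.body, (π y).restr (L 0) ∈ g0 y) →
    ∃ (q : Cond ℕ I) (g : Pt ℕ I → Set (Cond ℕ I)), Filt C P DD Lt q g ∧
      (∀ i ∈ L 0, ∀ y, q.T i y = q0.T i y) ∧ (∀ y ∈ q.body, π y ∈ g y) ∧
      ∀ y ∈ q.body, ∀ c ∈ g y, c.restr (L 0) ∈ g0 y

/-- Generic extensions exist at all levels (module REL). -/
def RelStmt (I : Type) [LinearOrder I] [WellFoundedLT I] : Prop :=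
  ∀ (J C : Set I) (P : Set (Cond ℕ I)) (DD : Set (Set (Cond ℕ I))), MH J C P → DF P DD →
    ∀ L, Lev C J L → REL C J P DD L

/-- Conditions generic over a countable hull (module GEN, from REL). -/
def GenStmt (I : Type) [LinearOrder I] [WellFoundedLT I] : Prop :=
  ∀ (J C : Set I) (P : Set (Cond ℕ I)) (DD : Set (Set (Cond ℕ I))), MH J C P → DF P DD →
    ∀ p ∈ P, ∃ q ≤ p, q.Below J ∧ q.S ⊆ C ∧ ∀ D ∈ DD, ∀ y ∈ q.body, ∃ d ∈ D, d ≤ p ∧ y ∈ d.body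

end

end Pool.Agent.Men
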