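import Pool.Agent.Helper86_Men.StmtsS
import Pool.Agent.Helper86_Men.StmtsM

/-!
# Squad MEN, statements of the product side

Names are measurable functions of `z = (y, x)`, `y` a Miller point, `x` a Sacks point.
-/

open MeasureTheory Set

namespace Pool.Agent.Men

/-- Points of the product. -/
abbrev PP (I : Type) := Pt ℕ I × Pt (Fin 2) I

/-- The function depends on the Miller part only through the coordinates in `J`. -/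
def DepL {I : Type} {β : Type*} (J : Set I) (f : PP I → β) : Prop :=
  ∀ (y y' : Pt ℕ I) (x : Pt (Fin 2) I), (∀ i ∈ J, y i = y' i) → f (y, x) = f (y', x)

section
variable {I : Type} [LinearOrder I]

/-- The product of the sets of points. -/
def Box (p : Cond ℕ I) (q : Cond (Fin 2) I) : Set (PP I) := p.body ×ˢ q.body

variable (I) [WellFoundedLT I]

/-- Measurable functions which depend on the coordinates in `J` depend on countably many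
coordinates in `J` (module DEPC). -/
def DepcStmt : Prop := ∀ (D : Type) [MeasurableSpace D] [Inhabited D] (J : Set I) (β : Type)
  [MeasurableSpace β] (f : Pt D I → β), (∃ E : ℕ → Set β, (∀ n, MeasurableSet (E n)) ∧
    ∀ a b, (∀ n, a ∈ E n ↔ b ∈ E n) → a = b) → Measurable f → DepFun J f →
  ∃ C : Set I, C.Countable ∧ C ⊆ J ∧ DepFun C f

/-- Generic fusion for the product (module GENT). -/
def GentStmt : Prop := ∀ (J : Set I), IsLowerSet J →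
  ∀ (Φ : ℕ → Cond ℕ I → Cond (Fin 2) I → Set ℕ → Prop),
  (∀ k r r' q q' B B', Φ k r q B → r' ≤ r → q' ≤ q → (B' \ B).Finite → Φ k r' q' B') →
  (∀ k r q (F : Finset I) (n : ℕ) (B : Set ℕ), r.Below J → B.Infinite →
    ∃ r' ≤ r, ∃ q' B', r'.Below J ∧ LeF q' q F n ∧ B' ⊆ B ∧ B'.Infinite ∧ Φ k r' q' B') →
  ∀ (p : Cond ℕ I) (q : Cond (Fin 2) I) (F : Finset I) (n : ℕ) (B : Set ℕ), p.Below J →
    B.Infinite → ∃ p' ≤ p, ∃ q' B', p'.Below J ∧ LeF q' q F n ∧ B' ⊆ B ∧ B'.Infinite ∧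
      ∀ k, ∃ E : ℕ → Cond ℕ I, (∀ e, (E e).Below J ∧ E e ≤ p ∧ Φ k (E e) q' B') ∧
        p'.body ⊆ ⋃ e, (E e).body

/-- Generic fusion for properties reached without frozen nodes (module GENT0). -/
def Gent0Stmt : Prop := ∀ (J : Set I), IsLowerSet J →
  ∀ (Φ : ℕ → Cond ℕ I → Cond (Fin 2) I → Set ℕ → Prop),
  (∀ k r r' q q' B B', Φ k r q B → r' ≤ r → q' ≤ q → (B' \ B).Finite → Φ k r' q' B') →
  ∀ (p : Cond ℕ I) (q : Cond (Fin 2) I) (F : Finset I) (n : ℕ) (B : Set ℕ), p.Below J →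
  B.Infinite →
  (∀ k, ∀ r ≤ p, ∀ q' ≤ q, ∀ B' ⊆ B, r.Below J → B'.Infinite →
    ∃ r' ≤ r, ∃ q'' ≤ q', ∃ B'' ⊆ B', r'.Below J ∧ B''.Infinite ∧ Φ k r' q'' B'') →
  ∃ p' ≤ p, ∃ q' B', p'.Below J ∧ LeF q' q F n ∧ B' ⊆ B ∧ B'.Infinite ∧
      ∀ k, ∃ (E : ℕ → Cond ℕ I) (N : ℕ → ℕ) (Q : ℕ → ℕ → Cond (Fin 2) I),
        (∀ e, (E e).Below J ∧ E e ≤ p) ∧ (∀ e, ∀ l < N e, Q e l ≤ q ∧ Φ k (E e) (Q e l) B') ∧
        p'.body ⊆ (⋃ e, (E e).body) ∧ ∀ e, ∀ x ∈ q'.body, ∃ l < N e, x ∈ (Q e l).body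

/-! ### Deciding measurable sets (module PDEC) -/

def PAvoidStmt : Prop := ∀ (J : Set I), IsLowerSet J → ∀ (A : ℕ → Set (PP I)) (p : Cond ℕ I)
  (q : Cond (Fin 2) I), p.Below J →
  (∀ n, ∀ p' ≤ p, ∀ q' ≤ q, p'.Below J →
    ∃ p'' ≤ p', ∃ q'' ≤ q', p''.Below J ∧ Disjoint (Box p'' q'') (A n)) →
  ∀ (F : Finset I) (n : ℕ), ∃ p' ≤ p, ∃ q', p'.Below J ∧ LeF q' q F n ∧
    ∀ m, Disjoint (Box p' q') (A m)

def PDecStmt : Prop := ∀ (J : Set I), IsLowerSet J → ∀ A : Set (PP I), MeasurableSet A →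
  DepL J (fun z => z ∈ A) → ∀ (p : Cond ℕ I) (q : Cond (Fin 2) I), p.Below J →
    ∃ p' ≤ p, ∃ q' ≤ q, p'.Below J ∧ (Box p' q' ⊆ A ∨ Disjoint (Box p' q') A)

def PCovStmt : Prop := ∀ (J : Set I), IsLowerSet J → ∀ A : ℕ → Set (PP I),
  (∀ n, MeasurableSet (A n)) → (∀ n, DepL J (fun z => z ∈ A n)) →
  ∀ (p : Cond ℕ I) (q : Cond (Fin 2) I), p.Below J → Box p q ⊆ ⋃ n, A n →
    ∃ p' ≤ p, ∃ q' ≤ q, p'.Below J ∧ ∃ n, Box p' q' ⊆ A n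

def MDecStmt : Prop := ∀ (J : Set I), IsLowerSet J → ∀ A : Set (Pt ℕ I), MeasurableSet A →
  DepOn J A → ∀ p : Cond ℕ I, p.Below J → ∃ p' ≤ p, p'.Below J ∧ (p'.body ⊆ A ∨ Disjoint p'.body A)

def MCovStmt : Prop := ∀ (J : Set I), IsLowerSet J → ∀ A : ℕ → Set (Pt ℕ I),
  (∀ n, MeasurableSet (A n)) → (∀ n, DepOn J (A n)) → ∀ p : Cond ℕ I, p.Below J →
    p.body ⊆ ⋃ n, A n → ∃ p' ≤ p, p'.Below J ∧ ∃ n, p'.body ⊆ A n

/-! ### Bounding by functions of the Miller part (module BND) -/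

def BndStmt : Prop := ∀ (J : Set I), IsLowerSet J → ∀ f : PP I → ℕ → ℕ, Measurable f →
  DepL J f → ∀ (p : Cond ℕ I) (q : Cond (Fin 2) I) (F : Finset I) (n : ℕ), p.Below J →
    ∃ p' ≤ p, ∃ q', p'.Below J ∧ LeF q' q F n ∧ ∃ h : Pt ℕ I → ℕ → ℕ, Measurable h ∧
      DepFun J h ∧ ∀ z ∈ Box p' q', ∀ k, f z k ≤ h z.1 k

/-! ### Stems and mixing at a splitting node (modules STEM, MIXM) -/

def StemStmt : Prop := ∀ (J : Set I), IsLowerSet J → ∀ j ∈ J, ∀ p : Cond ℕ I, p.Below J →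
  ∃ p' ≤ p, p'.Below J ∧ ∃ σ, SplitAt p' j σ

def MixMStmt : Prop := ∀ (J : Set I), IsLowerSet J → ∀ j ∈ J, ∀ (σ : Node) (r : Cond ℕ I),
  r.Below (Set.Iio j) → ∀ K : Pt ℕ I → Set ℕ, Measurable K → DepFun (Set.Iio j) K →
  (∀ y ∈ r.body, (K y).Infinite) → ∀ c : ℕ → Pt ℕ I → ℕ, (∀ k, Measurable (c k)) →
  (∀ k, DepFun (Set.Iio j) (c k)) → ∀ P : ℕ → Cond ℕ I, (∀ n, (P n).Below J) →
  (∀ y ∈ r.body, ∀ k ∈ K y, y ∈ (P (c k y)).On (Set.Iio j) ∧ σ ++ [k] ∈ (P (c k y)).T j y ∧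
    ∀ τ ∈ (P (c k y)).T j y, τ <+: σ ++ [k] ∨ σ ++ [k] <+: τ) →
  ∃ p' : Cond ℕ I, p'.Below J ∧ (∀ i < j, ∀ y, p'.T i y = r.T i y) ∧ SplitAt p' j σ ∧
    ∀ y ∈ p'.body, y j σ.length ∈ K y ∧ pre (y j) σ.length = σ ∧
      y ∈ (P (c (y j σ.length) y)).body

end

end Pool.Agent.Men
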