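import Pool.Agent.Helper86_Men.StmtsP

/-!
# Squad MEN, statements of the part R: the ground model sets are reaping
-/

open MeasureTheory Set

namespace Pool.Agent.Men

section
variable {I : Type} [LinearOrder I] [WellFoundedLT I]

/-- No splitting reals in the extension by the Miller conditions on `J` and all Sacks
conditions. -/
def RJ (J : Set I) : Prop := ∀ A : PP I → Set ℕ, Measurable A → DepL J A →
  ∀ (p : Cond ℕ I) (q : Cond (Fin 2) I) (B : Set ℕ), p.Below J → B.Infinite →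
    ∃ p' ≤ p, p'.Below J ∧ ∃ q' ≤ q, ∃ B' ⊆ B, B'.Infinite ∧
      ((∀ z ∈ Box p' q', B' ⊆ A z) ∨ ∀ z ∈ Box p' q', Disjoint B' (A z))

/-- Decided tuples: below the condition `p` (stem `σ` at the coordinate `j`) the membership of
the numbers between `n` and the digit of `y j` after `σ` depends only on `x`. -/
structure Tup (I : Type) [LinearOrder I] where
  p : Cond ℕ I
  j : I
  σ : Node
  n : ℕ

/-- The tuple is decided by the set `v`. -/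
def Dcd (J : Set I) (A : PP I → Set ℕ) (d : Tup I) (q : Cond (Fin 2) I) (B : Set ℕ)
    (v : Set (Pt (Fin 2) I)) : Prop :=
  d.p.Below J ∧ d.j ∈ J ∧ SplitAt d.p d.j d.σ ∧
    ∀ z ∈ Box d.p q, ∀ b ∈ B, d.n ≤ b → b < z.1 d.j d.σ.length → (b ∈ A z ↔ z.2 ∈ v)

/-- Large successors exist in the hull. -/
def Succ (C : Set I) (P : Set (Cond ℕ I)) : Prop :=
  ∀ p ∈ P, ∀ j ∈ C, ∀ σ, SplitAt p j σ → ∀ r ∈ P, r.S ⊆ Set.Iio j → r ≤ p.restr (Set.Iio j) →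
    ∀ m, ∃ a ≥ m, ∃ r' ∈ P, r'.S ⊆ Set.Iio j ∧ r' ≤ r ∧ ∀ y ∈ r'.body, σ ++ [a] ∈ p.T j y

/-- The data obtained from the colouring lemma STAR. -/
structure RData (J : Set I) (A : PP I → Set ℕ) (C : Set I) (P : Set (Cond ℕ I)) (K : Set I)
    (D : Set (Tup I)) (p1 : Cond ℕ I) (q : Cond (Fin 2) I) (B : Set ℕ) (c : Bool) : Prop where
  mh : MH J C P
  top : p1 ∈ P
  KC : K ⊆ C
  Kne : K.Nonempty
  mem : ∀ d ∈ D, d.p ∈ P ∧ d.p ≤ p1 ∧ d.j ∈ K ∧ SplitAt d.p d.j d.σ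
  dec : ∀ d ∈ D, ∀ z ∈ Box d.p q, ∀ b ∈ B, d.n ≤ b → b < z.1 d.j d.σ.length →
    (b ∈ A z ↔ c = true)
  raise : ∀ d ∈ D, ∀ n ≥ d.n, (⟨d.p, d.j, d.σ, n⟩ : Tup I) ∈ D
  dense : ∀ p ∈ P, p ≤ p1 → ∀ j0 ∈ K, ∃ d ∈ D, d.p ≤ p ∧ j0 ≤ d.j
  succ : Succ C P

/-- The tuple `d'` follows `d` at the successor number `a`, with no elements of `B` between `a`
and the threshold of `d'`. -/
def Nxt (B : Set ℕ) (d : Tup I) (a : ℕ) (d' : Tup I) : Prop :=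
  d'.p ≤ d.p ∧ d.n < d'.n ∧
    (∀ y ∈ d'.p.body, pre (y d.j) (d.σ.length + 1) = d.σ ++ [a]) ∧
    ∀ b ∈ B, d.n ≤ b → b < d'.n → b < a

/-- The bookkeeping property of the reservoir. -/
def NX (J C : Set I) (P : Set (Cond ℕ I)) (K : Set I) (D : Set (Tup I)) (B : Set ℕ) : Prop :=
  ∀ d ∈ D, ∀ L, Lev C J L → L ⊆ Set.Iio d.j → ∀ r ∈ P, r.S ⊆ L → r ≤ d.p.restr L → ∀ m,
    ∀ j0 ∈ K, ∃ d' ∈ D, ∃ a ≥ m, Nxt B d a d' ∧ d'.p.restr L ≤ r ∧ j0 ≤ d'.j ∧ m ≤ d'.n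

variable (I)

/-- The base case (module R0). -/
def R0Stmt : Prop := (∀ K : Set I, IsLowerSet K → STAR K) → RJ (∅ : Set I)

/-- Countably many names at once (module ROM). -/
def RomStmt : Prop := ∀ (J : Set I), IsLowerSet J → RJ J → ∀ A : ℕ → PP I → Set ℕ,
  (∀ k, Measurable (A k)) → (∀ k, DepL J (A k)) →
  ∀ (p : Cond ℕ I) (q : Cond (Fin 2) I) (B : Set ℕ), p.Below J → B.Infinite →
    ∃ p' ≤ p, p'.Below J ∧ ∃ q' ≤ q, ∃ B' ⊆ B, B'.Infinite ∧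
      ∀ z ∈ Box p' q', ∀ k, ∃ N, (∀ b ∈ B', N ≤ b → b ∈ A k z) ∨ ∀ b ∈ B', N ≤ b → b ∉ A k z

/-- Interpretation above the successors of a splitting node (module INT). -/
def IntStmt : Prop := ∀ (J : Set I), IsLowerSet J → ∀ j ∈ J, ∀ (σ : Node) (p : Cond ℕ I),
  p.Below J → SplitAt p j σ → ∀ A : PP I → Set ℕ, Measurable A → DepL J A →
  ∀ q : Cond (Fin 2) I, ∃ p' ≤ p, ∃ q' ≤ q, p'.Below J ∧ SplitAt p' j σ ∧
    ∃ D : ℕ → PP I → Set ℕ, (∀ k, Measurable (D k)) ∧ (∀ k, DepL (Set.Iio j) (D k)) ∧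
      ∀ z ∈ Box p' q', ∀ b < z.1 j σ.length, (b ∈ A z ↔ b ∈ D (z.1 j σ.length) z)

/-- Two dimensional reaping (module R2). -/
def R2Stmt : Prop := ∀ (J : Set I), IsLowerSet J → RJ J → ∀ (r : Cond ℕ I)
  (q : Cond (Fin 2) I) (B : Set ℕ), r.Below J → B.Infinite → ∀ K : Pt ℕ I → Set ℕ,
  Measurable K → DepFun J K → (∀ y ∈ r.body, (K y).Infinite) → ∀ D : ℕ → PP I → Set ℕ,
  (∀ k, Measurable (D k)) → (∀ k, DepL J (D k)) →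
  ∃ r' ≤ r, r'.Below J ∧ ∃ q' ≤ q, ∃ B' ⊆ B, B'.Infinite ∧ ∃ (c : Bool) (K' : Pt ℕ I → Set ℕ),
    Measurable K' ∧ DepFun J K' ∧ (∀ y ∈ r'.body, (K' y).Infinite ∧ K' y ⊆ K y) ∧
    ∀ z ∈ Box r' q', ∀ k ∈ K' z.1, ∀ b ∈ B', b < k → (b ∈ D k z ↔ c = true)

/-- Deciding at a splitting node (module DEC0). -/
def Dec0Stmt : Prop := ∀ (J : Set I), IsLowerSet J → ∀ j ∈ J, RJ (Set.Iio j) →
  ∀ A : PP I → Set ℕ, Measurable A → DepL J A → ∀ (p : Cond ℕ I) (σ : Node), p.Below J →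
  SplitAt p j σ → ∀ (q : Cond (Fin 2) I) (B : Set ℕ), B.Infinite →
  ∃ p' ≤ p, ∃ q' ≤ q, ∃ B' ⊆ B, p'.Below J ∧ SplitAt p' j σ ∧ B'.Infinite ∧ ∃ c : Bool,
    ∀ z ∈ Box p' q', ∀ b ∈ B', b < z.1 j σ.length → (b ∈ A z ↔ c = true)

/-- Deciding at a splitting node with frozen nodes on the Sacks side (module DECF). -/
def DecFStmt : Prop := ∀ (J : Set I), IsLowerSet J → ∀ j ∈ J, RJ (Set.Iio j) →
  ∀ A : PP I → Set ℕ, Measurable A → DepL J A → ∀ (p : Cond ℕ I) (σ : Node), p.Below J →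
  SplitAt p j σ → ∀ (q : Cond (Fin 2) I) (F : Finset I) (n : ℕ) (B : Set ℕ), B.Infinite →
  ∃ p' ≤ p, ∃ q', ∃ B' ⊆ B, p'.Below J ∧ LeF q' q F n ∧ SplitAt p' j σ ∧ B'.Infinite ∧
    ∃ v : Set (Pt (Fin 2) I), MeasurableSet v ∧
    ∀ z ∈ Box p' q', ∀ b ∈ B', b < z.1 j σ.length → (b ∈ A z ↔ z.2 ∈ v)

/-- The hull (module RA). -/
def RAStmt : Prop := ∀ (J : Set I), IsLowerSet J → J.Nonempty → (∀ j ∈ J, RJ (Set.Iio j)) →
  ∀ A : PP I → Set ℕ, Measurable A → DepL J A →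
  ∀ (p : Cond ℕ I) (q : Cond (Fin 2) I) (B : Set ℕ), p.Below J → B.Infinite →
    ∃ (C : Set I) (P : Set (Cond ℕ I)) (V : Set (Set (Pt (Fin 2) I))) (q' : Cond (Fin 2) I)
      (B' : Set ℕ), MH J C P ∧ C.Nonempty ∧ p.restr J ∈ P ∧ q' ≤ q ∧ B' ⊆ B ∧ B'.Infinite ∧
      V.Countable ∧ (∀ v ∈ V, MeasurableSet v) ∧ Succ C P ∧
      ∀ r ∈ P, ∀ j ∈ C, ∃ r' ∈ P, r' ≤ r ∧ ∃ σ n, ∃ v ∈ V, Dcd J A ⟨r', j, σ, n⟩ q' B' v

/-- The colouring (module RB). -/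
def RBStmt : Prop := ∀ (J : Set I), IsLowerSet J → J.Nonempty → (∀ j ∈ J, RJ (Set.Iio j)) →
  ∀ A : PP I → Set ℕ, Measurable A → DepL J A →
  ∀ (p : Cond ℕ I) (q : Cond (Fin 2) I) (B : Set ℕ), p.Below J → B.Infinite →
    ∃ (C : Set I) (P : Set (Cond ℕ I)) (K : Set I) (D : Set (Tup I)) (p1 : Cond ℕ I)
      (q' : Cond (Fin 2) I) (B' : Set ℕ) (c : Bool), p1 ≤ p ∧ q' ≤ q ∧ B' ⊆ B ∧ B'.Infinite ∧
      ((∃ j, K = {j} ∧ ∀ i ∈ C, i ≤ j) ∨ (K = C ∧ ∀ i ∈ C, ∃ i' ∈ C, i < i')) ∧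
      RData J A C P K D p1 q' B' c

/-- Thinning of the reservoir (module RC). -/
def RCStmt : Prop := ∀ (J : Set I) (A : PP I → Set ℕ) (C : Set I) (P : Set (Cond ℕ I))
  (K : Set I) (D : Set (Tup I)) (p1 : Cond ℕ I) (q : Cond (Fin 2) I) (B : Set ℕ) (c : Bool),
  RData J A C P K D p1 q B c → B.Infinite → ∃ B' ⊆ B, B'.Infinite ∧ NX J C P K D B'

/-- The Miller condition at a top coordinate (module RD1). -/
def RD1Stmt : Prop := ∀ (J : Set I) (A : PP I → Set ℕ) (C : Set I) (P : Set (Cond ℕ I))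
  (K : Set I) (D : Set (Tup I)) (p1 : Cond ℕ I) (q : Cond (Fin 2) I) (B : Set ℕ) (c : Bool),
  RData J A C P K D p1 q B c → NX J C P K D B → (∃ j, K = {j} ∧ ∀ i ∈ C, i ≤ j) →
  ∃ p' ≤ p1, p'.Below J ∧ ∃ n, ∀ z ∈ Box p' q, ∀ b ∈ B, n ≤ b → (b ∈ A z ↔ c = true)

/-- The Miller condition at a limit (module RD2). -/
def RD2Stmt : Prop := ∀ (J : Set I) (A : PP I → Set ℕ) (C : Set I) (P : Set (Cond ℕ I))
  (K : Set I) (D : Set (Tup I)) (p1 : Cond ℕ I) (q : Cond (Fin 2) I) (B : Set ℕ) (c : Bool),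
  RData J A C P K D p1 q B c → NX J C P K D B → (K = C ∧ ∀ i ∈ C, ∃ i' ∈ C, i < i') →
  ∃ p' ≤ p1, p'.Below J ∧ ∃ n, ∀ z ∈ Box p' q, ∀ b ∈ B, n ≤ b → (b ∈ A z ↔ c = true)

/-- The main theorem of this part (module RE). -/
def REStmt : Prop := ∀ (J : Set I), IsLowerSet J → RJ J

end

end Pool.Agent.Men
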