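import Pool.Agent.Helper86_Men.Defs2

/-!
# Squad MEN, statements of the Sacks side
-/

open MeasureTheory Set

namespace Pool.Agent.Men

/-! ### Canonical nodes of one tree (module ND) -/

def NDStmt : Prop := ∀ T : Set Node, Perf T →
  (∀ s, (∀ a ∈ s, a < 2) → nd T s ∈ T ∧ s.length ≤ (nd T s).length) ∧
  (∀ a s, (∀ b ∈ s, b < 2) → nd T s <+: nd T (a :: s) ∧ nd T s ≠ nd T (a :: s)) ∧
  (∀ s s', (∀ a ∈ s, a < 2) → (∀ a ∈ s', a < 2) → s.length = s'.length →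
    nd T s <+: nd T s' → s = s') ∧
  (∀ n, ∀ t ∈ body (Fin 2) T, ∃ s ∈ Wd n, pre t (nd T s).length = nd T s) ∧
  (∀ n σ, σ ∈ T → σ.length ≤ n → ∃ s ∈ Wd n, σ <+: nd T s) ∧
  (∀ T', Perf T' → T' ⊆ T → ∀ n, (∀ s ∈ Wd n, nd T s ∈ T') →
    ∀ m ≤ n, ∀ s ∈ Wd m, nd T' s = nd T s)

/-- Fusion of one tree. -/
def NDFusStmt : Prop := ∀ (T : ℕ → Set Node) (n : ℕ → ℕ), (∀ m, Perf (T m)) →
  (∀ m, T (m + 1) ⊆ T m) → (∀ m, n m < n (m + 1)) →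
  (∀ m, ∀ s ∈ Wd (n m), nd (T m) s ∈ T (m + 1)) →
  Perf (⋂ m, T m) ∧ ∀ m, ∀ s ∈ Wd (n m), nd (T m) s ∈ ⋂ m, T m

def NDMeasStmt : Prop := ∀ s σ, MeasurableSet {T : Set Node | nd T s = σ}

section
variable (I : Type) [LinearOrder I] [WellFoundedLT I]

/-! ### Fronts and amalgamation (module AMALG) -/

/-- Basic facts about the fusion order. -/
def LeFStmt : Prop := ∀ (F : Finset I) (n : ℕ) (q : Cond (Fin 2) I),
  LeF q q F n ∧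
  (∀ q' q'', LeF q' q F n → LeF q'' q' F n → LeF q'' q F n) ∧
  (∀ q' (F' : Finset I) (n' : ℕ), F' ⊆ F → n' ≤ n → LeF q' q F n → LeF q' q F' n') ∧
  (Fronts F n).Finite ∧
  (q.body = ⋃ c ∈ Fronts F n, cone q F c) ∧
  (∀ c ∈ Fronts F n, ∀ c' ∈ Fronts F n, c ≠ c' → Disjoint (cone q F c) (cone q F c')) ∧
  (∀ q', LeF q' q F n → ∀ c ∈ Fronts F n, cone q' F c = cone q F c ∩ q'.body)

/-- The pieces are conditions. -/
def ConeStmt : Prop := ∀ (K : Set I), IsLowerSet K → ∀ (F : Finset I) (n : ℕ)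
  (q : Cond (Fin 2) I), q.Below K → ↑F ⊆ K → ∀ c ∈ Fronts F n, ∃ r : Cond (Fin 2) I,
    r.Below K ∧ r.body = cone q F c ∧ (∀ i, i ∉ F → ∀ x, r.T i x = q.T i x) ∧
    ∀ i ∈ F, ∀ x, r.T i x = sub (q.T i x) (nd (q.T i x) (c i))

/-- Amalgamation: a condition inside of one piece is amalgamated into the whole condition;
frozen nodes at further coordinates are kept. -/
def AmalgStmt : Prop := ∀ (K : Set I), IsLowerSet K → ∀ (F : Finset I) (n : ℕ)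
  (q : Cond (Fin 2) I), q.Below K → ↑F ⊆ K → ∀ c ∈ Fronts F n, ∀ q' : Cond (Fin 2) I, q'.Below K →
  q'.body ⊆ cone q F c → ∃ q'' : Cond (Fin 2) I, q''.Below K ∧ LeF q'' q F n ∧
    cone q'' F c = q'.body ∧
    (∀ c' ∈ Fronts F n, ∀ i ∈ F, c' i ≠ c i → (∀ j ∈ F, j < i → c' j = c j) →
      ∀ x ∈ cone q F c', (x ∈ q''.body ↔ x ∈ q'.On (Set.Iio i))) ∧
    (∀ (G : Finset I) (m : ℕ), (∀ i ∈ G, i ∉ F) →
      (∀ i ∈ G, ∀ x ∈ q'.On (Set.Iio i), ∀ s ∈ Wd m, nd (q.T i x) s ∈ q'.T i x) →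
      LeF q'' q G m)

/-- Handling all pieces of a front one after the other. -/
def FrontStmt : Prop := ∀ (K : Set I), IsLowerSet K → ∀ (X : Type) [Preorder X]
  (Φ : X → Cond (Fin 2) I → Prop),
  (∀ s s' q q', Φ s q → s' ≤ s → q' ≤ q → Φ s' q') →
  (∀ s q, q.Below K → ∃ s' ≤ s, ∃ q' ≤ q, q'.Below K ∧ Φ s' q') →
  ∀ (s : X) (q : Cond (Fin 2) I) (F : Finset I) (n : ℕ), q.Below K → ↑F ⊆ K →
    ∃ s' ≤ s, ∃ q' : Cond (Fin 2) I, q'.Below K ∧ LeF q' q F n ∧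
      ∀ c ∈ Fronts F n, ∃ r : Cond (Fin 2) I, r.Below K ∧ r.body = cone q' F c ∧ Φ s' r

/-! ### Fusion (modules FUS, FUSH) -/

def FusStmt : Prop := ∀ (K : Set I), IsLowerSet K → ∀ (q : ℕ → Cond (Fin 2) I)
  (F : ℕ → Finset I) (n : ℕ → ℕ), (∀ m, (q m).Below K) → (∀ m, ↑(F m) ⊆ K) →
  (∀ m, LeF (q (m + 1)) (q m) (F m) (n m)) → (∀ m, F m ⊆ F (m + 1)) → (∀ m, n m < n (m + 1)) →
  (∀ m, (q m).S ∩ K ⊆ ⋃ k, ↑(F k)) →
  ∃ q' : Cond (Fin 2) I, q'.Below K ∧ ∀ m, LeF q' (q m) (F m) (n m)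

/-- Fusion together with the construction of a countable hull `H` (inside of an arbitrary type `W`)
and of a pseudointersection `B'`. -/
def FushStmt : Prop := ∀ (K : Set I), IsLowerSet K → ∀ (W ι : Type) [Countable ι]
  (R : ι → W → W → W → W → Cond (Fin 2) I → Set ℕ → Prop),
  (∀ t a b c w q q' B B', R t a b c w q B → q' ≤ q → (B' \ B).Finite → R t a b c w q' B') →
  (∀ t a b c q (F : Finset I) (n : ℕ) (B : Set ℕ), q.Below K → ↑F ⊆ K → B.Infinite →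
    ∃ w q' B', q'.Below K ∧ LeF q' q F n ∧ B' ⊆ B ∧ B'.Infinite ∧ R t a b c w q' B') →
  ∀ (W0 : Set W) (q : Cond (Fin 2) I) (F : Finset I) (n : ℕ) (B : Set ℕ), W0.Countable →
    W0.Nonempty → q.Below K → ↑F ⊆ K → B.Infinite →
    ∃ (H : Set W) (q' : Cond (Fin 2) I) (B' : Set ℕ), W0 ⊆ H ∧ H.Countable ∧ q'.Below K ∧
      LeF q' q F n ∧ B' ⊆ B ∧ B'.Infinite ∧
      ∀ t, ∀ a ∈ H, ∀ b ∈ H, ∀ c ∈ H, ∃ w ∈ H, R t a b c w q' B'

/-! ### Deciding Borel sets on the Sacks side (module CS) -/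

def SAvoidStmt : Prop := ∀ (K : Set I), IsLowerSet K → ∀ (A : ℕ → Set (Pt (Fin 2) I))
  (q : Cond (Fin 2) I), q.Below K →
  (∀ n, ∀ q' ≤ q, q'.Below K → ∃ q'' ≤ q', q''.Below K ∧ Disjoint q''.body (A n)) →
  ∀ (F : Finset I) (n : ℕ), ↑F ⊆ K →
    ∃ q' : Cond (Fin 2) I, q'.Below K ∧ LeF q' q F n ∧ ∀ m, Disjoint q'.body (A m)

def SDecStmt : Prop := ∀ (K : Set I), IsLowerSet K → ∀ A : Set (Pt (Fin 2) I),
  MeasurableSet A → DepOn K A → ∀ q : Cond (Fin 2) I, q.Below K →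
    ∃ q' ≤ q, q'.Below K ∧ (q'.body ⊆ A ∨ Disjoint q'.body A)

def SCovStmt : Prop := ∀ (K : Set I), IsLowerSet K → ∀ A : ℕ → Set (Pt (Fin 2) I),
  (∀ n, MeasurableSet (A n)) → (∀ n, DepOn K (A n)) → ∀ q : Cond (Fin 2) I, q.Below K →
    q.body ⊆ ⋃ n, A n → ∃ q' ≤ q, q'.Below K ∧ ∃ n, q'.body ⊆ A n

/-! ### STAR: one colour on a dense set of names -/

variable {I}

/-- `STAR K`: for measurable sets `A r`, `r ∈ Q`, one colour is taken on a dense set of `r`,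
by the points of one condition. -/
def STAR (K : Set I) : Prop := ∀ (Q : Type) [Preorder Q] [Countable Q] (D0 : Set Q) (r0 : Q),
  DenseBelow D0 r0 → ∀ A : Q → Set (Pt (Fin 2) I), (∀ r, MeasurableSet (A r)) →
  (∀ r, DepOn K (A r)) → ∀ q : Cond (Fin 2) I, q.Below K → ∃ q' ≤ q, q'.Below K ∧ ∃ r1 ≤ r0,
    ∃ D ⊆ D0, DenseBelow D r1 ∧ ((∀ d ∈ D, q'.body ⊆ A d) ∨ ∀ d ∈ D, Disjoint q'.body (A d))

/-- Some condition below `q` keeping the nodes of level `n` at the coordinates in `F` is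
contained in `A`. -/
def Hit (K : Set I) (q : Cond (Fin 2) I) (F : Finset I) (n : ℕ) (A : Set (Pt (Fin 2) I)) : Prop :=
  ∃ q' : Cond (Fin 2) I, q'.Below K ∧ LeF q' q F n ∧ q'.body ⊆ A

/-- Finitely many colours. -/
def StarFinStmt (K : Set I) : Prop := ∀ (N : ℕ) (Q : Type) [Preorder Q] [Countable Q]
  (D0 : Set Q) (r0 : Q), DenseBelow D0 r0 → ∀ A : Fin N → Q → Set (Pt (Fin 2) I),
  (∀ l r, MeasurableSet (A l r)) → (∀ l r, DepOn K (A l r)) → ∀ q : Cond (Fin 2) I, q.Below K →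
    ∃ q' ≤ q, q'.Below K ∧ ∃ r1 ≤ r0, ∃ D ⊆ D0, DenseBelow D r1 ∧
      ∀ l, (∀ d ∈ D, q'.body ⊆ A l d) ∨ ∀ d ∈ D, Disjoint q'.body (A l d)

/-- Front below `i0`: below a condition `u ≤ q | i0` for all `r` and all words `s` the
points above which the piece `s` (at `i0`) can be hit form a measurable set. -/
def HitFrontStmt (K : Set I) : Prop := ∀ i0 ∈ K, ∀ (Q : Type) [Countable Q]
  (A : Q → Set (Pt (Fin 2) I)) (q : Cond (Fin 2) I), q.Below K → ∀ (G : Finset I) (n : ℕ),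
  (∀ i ∈ G, i0 < i ∧ i ∈ K) →
  ∃ u : Cond (Fin 2) I, u.Below (Set.Iio i0) ∧ u ≤ q.restr (Set.Iio i0) ∧
  ∃ H : List ℕ → Q → Set (Pt (Fin 2) I), (∀ s r, MeasurableSet (H s r)) ∧
    (∀ s r, DepOn (Set.Iio i0) (H s r)) ∧
    ∀ s ∈ Wd n, ∀ r,
      (∃ q' : Cond (Fin 2) I, q'.Below K ∧ (∀ i < i0, ∀ x, q'.T i x = u.T i x) ∧
        q'.body ⊆ cone q {i0} (Function.update (fun _ => []) i0 s) ∧
        LeF q' q G n ∧ q'.body ∩ H s r ⊆ A r) ∧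
      (∀ q' : Cond (Fin 2) I, q'.Below K → q'.restr (Set.Iio i0) ≤ u →
        q'.body ⊆ cone q {i0} (Function.update (fun _ => []) i0 s) → LeF q' q G n →
        Disjoint q'.body (H s r) → ¬ q'.body ⊆ A r)

/-- One step of the failure analysis. -/
def FailStepStmt (K : Set I) : Prop := ∀ (Q : Type) [Preorder Q] [Countable Q]
  (D0 : Set Q) (r0 : Q), DenseBelow D0 r0 → ∀ A : Q → Set (Pt (Fin 2) I),
  (∀ r, MeasurableSet (A r)) → (∀ r, DepOn K (A r)) → ∀ q : Cond (Fin 2) I, q.Below K →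
  ∀ (i0 : I) (G : Finset I) (n : ℕ), i0 ∈ K → (∀ i ∈ G, i0 < i ∧ i ∈ K) →
  (∀ r ∈ D0, ¬ Hit K q (insert i0 G) n (A r)) →
  ∃ q' ≤ q, q'.Below K ∧ ∃ r1 ≤ r0, ∃ D ⊆ D0, DenseBelow D r1 ∧ ∀ r ∈ D, ¬ Hit K q' G n (A r)

/-- The failure analysis. -/
def FailStmt (K : Set I) : Prop := ∀ (Q : Type) [Preorder Q] [Countable Q]
  (D0 : Set Q) (r0 : Q), DenseBelow D0 r0 → ∀ A : Q → Set (Pt (Fin 2) I),
  (∀ r, MeasurableSet (A r)) → (∀ r, DepOn K (A r)) → ∀ q : Cond (Fin 2) I, q.Below K →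
  ∀ (F : Finset I) (n : ℕ), ↑F ⊆ K → (∀ r ∈ D0, ¬ Hit K q F n (A r)) →
  ∃ q' ≤ q, q'.Below K ∧ ∃ r1 ≤ r0, ∃ D ⊆ D0, DenseBelow D r1 ∧ ∀ r ∈ D, Disjoint q'.body (A r)

end

end Pool.Agent.Men
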